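import Pool.Agent.Y882.Tent

/-! Bombieri-Vinogradov for the tent weight, with weights depending on the number of prime factors. -/

set_option autoImplicit false

open Finset Filter Topology

namespace Pool.Agent.Y882.GP

open Pool.Agent.Y882
open Pool.Agent.H410R2
open Pool.Agent.Helper112 Pool.Agent.Helper112.BLB

open Classical in
/-- Bombieri-Vinogradov for the tent weight -/
theorem bv_alc (h : BVTotal) (c : ℝ) (hc : 1 ≤ c) (δ : ℝ) (hδ : 0 < δ) (A' : ℕ) :
    ∀ᶠ x : ℝ in atTop,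
    ∀ F0 : ℕ, (F0 : ℝ) ≤ (x / 2) ^ (1 / 2 - δ) → (1 / 2 - δ) ≥ 0 →
    ∑ f ∈ Icc 2 F0, (c ^ f.primeFactors.card / (Nat.totient f : ℝ)) * PA ⌊x⌋₊ (al x) f ≤
      4 * x / (Real.log (x / 2)) ^ A' := by
  obtain ⟨X0, hX0⟩ := h c hc δ hδ A'
  have hc0 : 0 < c := by linarith
  filter_upwards [eventually_ge_atTop (2 * X0), eventually_ge_atTop 10] with x hx hx10
  intro F0 hF0 hδ2
  have hs2 : (1 : ℝ) ≤ √2 := by
    rw [Real.one_le_sqrt]; norm_num
  have hs22 : √2 ≤ 2 := Real.sqrt_le_iff.2 ⟨by norm_num, by norm_num⟩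
  have hx0 : 0 < x := by linarith
  have hl : 0 < Real.log (x / 2) := Real.log_pos (by linarith)
  have key : ∀ y : ℝ, x / 2 ≤ y → y ≤ x → ∑ f ∈ Icc 2 F0, (c ^ f.primeFactors.card / (Nat.totient f : ℝ)) *
      ∑ ψ ∈ (univ : Finset (DirichletCharacter ℂ f)).filter (fun ψ => ψ.IsPrimitive),
        ‖psiLog y f ψ‖ ≤ x / (Real.log (x / 2)) ^ A' := by
    intro y hy1 hy2
    have h1 := hX0 y (by linarith)
    have hsub : Icc 2 F0 ⊆ Icc 2 ⌊y ^ (1 / 2 - δ)⌋₊ := by
      apply Icc_subset_Icc_right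
      apply Nat.le_floor
      refine hF0.trans ?_
      exact Real.rpow_le_rpow (by linarith) hy1 hδ2
    calc ∑ f ∈ Icc 2 F0, (c ^ f.primeFactors.card / (Nat.totient f : ℝ)) *
      ∑ ψ ∈ (univ : Finset (DirichletCharacter ℂ f)).filter (fun ψ => ψ.IsPrimitive),
        ‖psiLog y f ψ‖ ≤ ∑ f ∈ Icc 2 ⌊y ^ (1 / 2 - δ)⌋₊, (c ^ f.primeFactors.card / (Nat.totient f : ℝ)) *
      ∑ ψ ∈ (univ : Finset (DirichletCharacter ℂ f)).filter (fun ψ => ψ.IsPrimitive),
        ‖psiLog y f ψ‖ := by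
          apply sum_le_sum_of_subset_of_nonneg hsub
          intro f _ _
          positivity
      _ ≤ y / Real.log y ^ A' := h1
      _ ≤ x / (Real.log (x / 2)) ^ A' := by
          apply div_le_div₀ hx0.le hy2 (by positivity)
          exact pow_le_pow_left₀ hl.le (Real.log_le_log (by linarith) hy1) _
  have k1 := key x (by linarith) le_rfl
  have k2 := key (x / √2) (div_le_div_of_nonneg_left hx0.le (by linarith) hs22)
    (div_le_self hx0.le hs2)
  have k3 := key (x / 2) le_rfl (by linarith)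
  calc ∑ f ∈ Icc 2 F0, (c ^ f.primeFactors.card / (Nat.totient f : ℝ)) * PA ⌊x⌋₊ (al x) f ≤
      ∑ f ∈ Icc 2 F0, ((c ^ f.primeFactors.card / (Nat.totient f : ℝ)) *
      ∑ ψ ∈ (univ : Finset (DirichletCharacter ℂ f)).filter (fun ψ => ψ.IsPrimitive),
        ‖psiLog x f ψ‖ + 2 * ((c ^ f.primeFactors.card / (Nat.totient f : ℝ)) *
      ∑ ψ ∈ (univ : Finset (DirichletCharacter ℂ f)).filter (fun ψ => ψ.IsPrimitive),
        ‖psiLog (x / √2) f ψ‖) + (c ^ f.primeFactors.card / (Nat.totient f : ℝ)) *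
      ∑ ψ ∈ (univ : Finset (DirichletCharacter ℂ f)).filter (fun ψ => ψ.IsPrimitive),
        ‖psiLog (x / 2) f ψ‖) := by
        apply sum_le_sum
        intro f _
        have h2 : PA ⌊x⌋₊ (al x) f ≤
          ∑ ψ ∈ (univ : Finset (DirichletCharacter ℂ f)).filter (fun ψ => ψ.IsPrimitive),
            ‖psiLog x f ψ‖ + 2 *
          ∑ ψ ∈ (univ : Finset (DirichletCharacter ℂ f)).filter (fun ψ => ψ.IsPrimitive),
            ‖psiLog (x / √2) f ψ‖ +
          ∑ ψ ∈ (univ : Finset (DirichletCharacter ℂ f)).filter (fun ψ => ψ.IsPrimitive),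
            ‖psiLog (x / 2) f ψ‖ := by
          unfold PA
          rw [mul_sum, ← sum_add_distrib, ← sum_add_distrib]
          apply sum_le_sum
          intro ψ _
          rw [A_al x hx0]
          refine (norm_add_le _ _).trans (add_le_add ?_ le_rfl)
          refine (norm_sub_le _ _).trans (add_le_add le_rfl ?_)
          rw [norm_mul]
          simp
        calc (c ^ f.primeFactors.card / (Nat.totient f : ℝ)) * PA ⌊x⌋₊ (al x) f ≤ (c ^ f.primeFactors.card / (Nat.totient f : ℝ)) * _ :=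
              mul_le_mul_of_nonneg_left h2 (by positivity)
          _ = _ := by ring
    _ ≤ x / (Real.log (x / 2)) ^ A' + 2 * (x / (Real.log (x / 2)) ^ A') +
        x / (Real.log (x / 2)) ^ A' := by
        rw [sum_add_distrib, sum_add_distrib, ← mul_sum]
        linarith
    _ = _ := by ring

end Pool.Agent.Y882.GP
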