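import Pool.Agent.Y882.PX.Dual
import Pool.Agent.Y882.Err

/-! Values `F(b) + k` at primes `b`: definitions. -/

set_option autoImplicit false

namespace Pool.Agent.Y882.GP

open Finset Polynomial
open Pool.Agent.Helper112 Pool.Agent.Helper112.BLB
open H343 (ex)
open Pool.Agent.Y882.PX (ro KF)

open Classical in
/-- the residues `a` prime to `d` with `F(a) + k ≡ 0 (mod d)` -/
noncomputable def Rt (F : ℤ[X]) (k : ℤ) (d : ℕ) : Finset ℕ :=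
  (range d).filter (fun a : ℕ => (d : ℤ) ∣ F.eval (a : ℤ) + k ∧ a.Coprime d)

/-- their number -/
noncomputable def rs (F : ℤ[X]) (k : ℤ) (d : ℕ) : ℕ := (Rt F k d).card

/-- the twisted number -/
noncomputable def tw (F : ℤ[X]) (k : ℤ) (d : ℕ) (χ : DirichletCharacter ℂ d) : ℂ :=
  ∑ a ∈ Rt F k d, (starRingEnd ℂ) (χ (a : ZMod d))

open Classical in
/-- the discrepancy -/
noncomputable def Eg (F : ℤ[X]) (X : ℕ) (α : ℕ → ℝ) (k : ℤ) (d : ℕ) : ℝ :=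
  ∑ b ∈ (Icc 1 X).filter (fun b : ℕ => b.Coprime d ∧ (d : ℤ) ∣ F.eval (b : ℤ) + k), α b -
    (rs F k d : ℝ) / (Nat.totient d : ℝ) * ∑ b ∈ (Icc 1 X).filter (fun b => b.Coprime d), α b

/-- the weighted sum of the twisted numbers over a set of constant terms -/
noncomputable def WW (F : ℤ[X]) (w : ℤ → ℝ) (S : Finset ℤ) (f : ℕ) (ψ : DirichletCharacter ℂ f) :
    ℂ := ∑ k ∈ S, (w k : ℂ) * tw F k f ψ

/-- job EG -/
def St_EG : Prop := ∀ (F : ℤ[X]) (X : ℕ) (α : ℕ → ℝ) (k : ℤ) (d : ℕ) [NeZero d],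
    ((Eg F X α k d : ℝ) : ℂ) = (1 / (Nat.totient d : ℂ)) *
      ∑ χ ∈ (univ : Finset (DirichletCharacter ℂ d)).filter (fun χ => χ ≠ 1),
        tw F k d χ * A X α d χ

/-- job TW -/
def St_TW : Prop := ∀ (F : ℤ[X]) (k : ℤ) (f g : ℕ) (_ : f.Coprime g) (_ : 0 < f) (_ : 0 < g)
    (h : f ∣ f * g) (ψ : DirichletCharacter ℂ f),
    tw F k (f * g) (DirichletCharacter.changeLevel h ψ) = (rs F k g : ℂ) * tw F k f ψ

open Classical in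
/-- job BES -/
def St_BES : Prop := ∀ (F : ℤ[X]) (w : ℤ → ℝ) (S : Finset ℤ) (f : ℕ) (_ : 0 < f) (B : ℝ)
    (_ : ∀ k : ℤ, (ro F k f : ℝ) ≤ B),
    ((f : ℝ) / (Nat.totient f : ℝ)) *
      ∑ ψ ∈ (univ : Finset (DirichletCharacter ℂ f)).filter (fun ψ => ψ.IsPrimitive),
        ‖WW F w S f ψ‖ ^ 2 ≤
      B * ∑ b ∈ (range f).filter (fun b => b.Coprime f),
        ‖∑ k ∈ S, (w k : ℂ) * ex ((b : ℝ) * k / f)‖ ^ 2

/-- job LSI -/
def St_LSI : Prop := ∀ (H D : ℕ) (S : Finset ℤ) (_ : S ⊆ Icc (-(H : ℤ)) H) (w : ℤ → ℝ),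
    ∑ f ∈ Icc 1 D, ∑ b ∈ (range f).filter (fun b => b.Coprime f),
      ‖∑ k ∈ S, (w k : ℂ) * ex ((b : ℝ) * k / f)‖ ^ 2 ≤
    6 * (2 * H + 1 + (D : ℝ) ^ 2) * ∑ k ∈ S, w k ^ 2

end Pool.Agent.Y882.GP
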