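import Pool.Agent.Y882.GP.Low
import Pool.Agent.Y882.GP.BV
import Pool.Agent.Y882.Fin
import Pool.Agent.Y37.GP.Eg
import Pool.Agent.Y356.GP.Bes
import Pool.Agent.Y914.GP.LSI
import Pool.Agent.Y312.GP.Tw

/-! Few constant terms with a large error term. -/

set_option autoImplicit false

open Finset Polynomial Filter Topology

namespace Pool.Agent.Y882.GP

open Pool.Agent.Y882
open Pool.Agent.W23.DC
open Pool.Agent.H410R2
open Pool.Agent.Helper112 Pool.Agent.Helper112.BLB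
open Pool.Agent.H732R2.B2 (Sc)
open Pool.Agent.Y882.PX (ro KF)

theorem eg_true : St_EG := Pool.Agent.Y37.GP.eg
theorem tw_true : St_TW := Pool.Agent.Y312.GP.tw_level
theorem bes_true : St_BES := Pool.Agent.Y356.GP.bes
theorem lsi_true : St_LSI := Pool.Agent.Y914.GP.lsi

theorem Sc_le (κ D Y : ℕ) (CS : ℝ) (hCS : 0 < CS) (HSc : ∀ Q : ℕ, 3 ≤ Q →
    Sc κ Q ≤ CS * Real.log Q ^ (2 * (κ : ℝ))) (hY : 3 ≤ Y) (hDY : D ≤ Y) :
    Sc κ D ≤ CS * Real.log Y ^ (2 * κ) := by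
  have h1 : Sc κ D ≤ Sc κ (max D 3) :=
    Pool.Agent.H732R2.B2.Sc_mono κ (Nat.cast_nonneg _) (le_max_left _ _)
  refine h1.trans ((HSc _ (le_max_right _ _)).trans ?_)
  apply mul_le_mul_of_nonneg_left _ hCS.le
  have h2 : (2 * (κ : ℝ)) = ((2 * κ : ℕ) : ℝ) := by push_cast; ring
  rw [h2, Real.rpow_natCast]
  apply pow_le_pow_left₀ (Real.log_natCast_nonneg _)
  apply Real.log_le_log
  · have : 0 < max D 3 := lt_of_lt_of_le (by norm_num) (le_max_right _ _)
    exact_mod_cast this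
  · have : max D 3 ≤ Y := max_le hDY hY
    exact_mod_cast this

open Classical in
theorem few_err (F : ℤ[X]) (hF : 1 ≤ F.natDegree) (θ ζ τ' E ε : ℝ) (U : ℕ) (hθ0 : 0 < θ)
    (hθ1 : θ ≤ 1) (hτ0 : 0 < τ') (hτ1 : τ' ≤ 1) (hE1 : 1 - θ ≤ E) (hE2 : 2 * τ' - θ ≤ E)
    (hε : 0 < ε) : ∃ Y0 : ℕ, ∀ Y : ℕ, Y0 ≤ Y → ∀ x : ℝ, (Y : ℝ) ^ θ ≤ x → x ≤ Y →
      ∀ c : Finset ℕ → ℝ, (∀ T, |c T| ≤ 5 * Real.log Y) →
      (∀ T ⊆ PZ Y ζ, c T ≠ 0 → ((∏ p ∈ T, p : ℕ) : ℝ) ≤ (Y : ℝ) ^ τ') →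
      (((Icc (-(Y : ℤ)) Y).filter (fun k =>
        ∑ T ∈ (PZ Y ζ).powerset, c T * Eg F ⌊x⌋₊ (al x) k (∏ p ∈ T, p) <
          -(x / Real.log Y ^ U))).card : ℝ) ≤ (Y : ℝ) ^ (E + ε / 2) := by
  set κ : ℕ := KF F with hκ
  have hκ1 : 1 ≤ κ := hF.trans (le_max_left _ _)
  set δ' : ℝ := min (ε / 16) (1 / 4) with hδ'
  have hδ'0 : 0 < δ' := lt_min (by linarith) (by norm_num)
  have hδ'ε : δ' ≤ ε / 16 := min_le_left _ _
  have hδ'4 : δ' ≤ 1 / 4 := min_le_right _ _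
  set η : ℝ := min (ε / 16) (θ / 4) with hη
  have hη0 : 0 < η := lt_min (by linarith) (by linarith)
  have hηε : η ≤ ε / 16 := min_le_left _ _
  have hηθ : η ≤ θ / 4 := min_le_right _ _
  set A' : ℕ := U + 2 * κ + 2 with hA'
  obtain ⟨CS, hCS, HSc⟩ := Pool.Agent.H732R2.B2.Sc_bound κ (Nat.cast_nonneg _)
  obtain ⟨C, hC1, HC⟩ := PX.pow_card_le κ η hη0
  obtain ⟨X1, HBV⟩ := eventually_atTop.1 (bv_alc bv_true κ (by exact_mod_cast hκ1) δ' hδ'0 A')
  have hC0 : 0 < C := by linarith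
  set C8 : ℝ := 240 * CS with hC8
  have ev0 : ∀ᶠ Y : ℕ in atTop, max X1 16 ≤ (Y : ℝ) ^ θ :=
    tendsto_natCast_atTop_atTop.eventually ((tendsto_rpow_atTop hθ0).eventually_ge_atTop _)
  have ev2 : ∀ᶠ Y : ℕ in atTop, max (80 * CS * (4 / θ) ^ A') 2 ≤ Real.log Y :=
    tendsto_natCast_atTop_atTop.eventually (Real.tendsto_log_atTop.eventually_ge_atTop _)
  have ev3 := polylog (40 * CS * C) (2 * κ + 4 + U) (θ / 4) (by linarith)
  have ev4 := polylog (C8 ^ 2 * 169 * C) (2 * (2 * κ + 3 + U)) (ε / 4) (by linarith)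
  obtain ⟨Y2, HY2⟩ := eventually_atTop.1 (ev0.and (ev2.and (ev3.and (ev4.and
    (eventually_ge_atTop 3)))))
  refine ⟨Y2, ?_⟩
  intro Y hY x hYx hxY c hc1 hc2
  obtain ⟨f0, f2, f3, f4, f8⟩ := HY2 Y hY
  set L : ℝ := Real.log Y with hL
  have hYr : (3 : ℝ) ≤ Y := by exact_mod_cast f8
  have hY1 : (1 : ℝ) ≤ Y := by linarith
  have hY0 : (0 : ℝ) < Y := by linarith
  have hL2 : 2 ≤ L := (le_max_right _ _).trans f2
  have hL0 : 0 < L := by linarith
  have hx16 : 16 ≤ x := ((le_max_right _ _).trans f0).trans hYx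
  have hxX1 : X1 ≤ x := ((le_max_left _ _).trans f0).trans hYx
  have hx0 : 0 < x := by linarith
  have hx1 : 1 ≤ x := by linarith
  have hlx : Real.log x ≤ L := Real.log_le_log hx0 hxY
  have hlx0 : 0 ≤ Real.log x := Real.log_nonneg hx1
  set X := ⌊x⌋₊ with hX
  have hXx : (X : ℝ) ≤ x := Nat.floor_le hx0.le
  -- the levels
  set F0 : ℕ := ⌊(x / 2) ^ (1 / 2 - δ')⌋₊ with hF0
  set D0 : ℕ := ⌊(Y : ℝ) ^ τ'⌋₊ with hD0
  set D : ℕ := max D0 F0 with hD
  have hF0D : F0 ≤ D := le_max_right _ _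
  have hF01 : 1 ≤ F0 := by
    apply Nat.le_floor
    push_cast
    exact Real.one_le_rpow (by linarith) (by linarith)
  have hF0le : (F0 : ℝ) ≤ (x / 2) ^ (1 / 2 - δ') := Nat.floor_le (by positivity)
  have hF0x : (F0 : ℝ) ≤ √x := by
    rw [Real.sqrt_eq_rpow]
    refine hF0le.trans ?_
    calc (x / 2) ^ (1 / 2 - δ') ≤ (x / 2) ^ ((1 : ℝ) / 2) :=
          Real.rpow_le_rpow_of_exponent_le (by linarith) (by linarith)
      _ ≤ x ^ ((1 : ℝ) / 2) := Real.rpow_le_rpow (by positivity) (by linarith) (by norm_num)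
  have hD0le : (D0 : ℝ) ≤ (Y : ℝ) ^ τ' := Nat.floor_le (by positivity)
  have hsxY : √x ≤ (Y : ℝ) ^ ((1 : ℝ) / 2) := by
    rw [Real.sqrt_eq_rpow]
    exact Real.rpow_le_rpow hx0.le hxY (by norm_num)
  set μ : ℝ := max (1 / 2 + δ') τ' with hμ
  have hYμ1 : (Y : ℝ) ^ ((1 : ℝ) / 2) ≤ (Y : ℝ) ^ μ :=
    Real.rpow_le_rpow_of_exponent_le hY1 ((by linarith : (1 : ℝ) / 2 ≤ 1 / 2 + δ').trans
      (le_max_left _ _))
  have hDμ : (D : ℝ) ≤ (Y : ℝ) ^ μ := by
    rw [hD]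
    push_cast
    apply max_le
    · exact hD0le.trans (Real.rpow_le_rpow_of_exponent_le hY1 (le_max_right _ _))
    · exact hF0x.trans (hsxY.trans hYμ1)
  have hDY : (D : ℝ) ≤ Y := by
    rw [hD]
    push_cast
    apply max_le
    · refine hD0le.trans ?_
      calc (Y : ℝ) ^ τ' ≤ (Y : ℝ) ^ (1 : ℝ) := Real.rpow_le_rpow_of_exponent_le hY1 hτ1
        _ = Y := Real.rpow_one _
    · refine hF0x.trans (hsxY.trans ?_)
      calc (Y : ℝ) ^ ((1 : ℝ) / 2) ≤ (Y : ℝ) ^ (1 : ℝ) :=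
            Real.rpow_le_rpow_of_exponent_le hY1 (by norm_num)
        _ = Y := Real.rpow_one _
  have hD1 : 1 ≤ D := hF01.trans hF0D
  have hDYn : D ≤ Y := by exact_mod_cast hDY
  have hlD : Real.log D ≤ L := Real.log_le_log (by exact_mod_cast hD1) hDY
  have hlD0 : 0 ≤ Real.log D := Real.log_natCast_nonneg D
  have hSc : Sc κ D ≤ CS * L ^ (2 * κ) := Sc_le κ D Y CS hCS HSc f8 hDYn
  have hSc0 : 0 ≤ Sc (κ : ℝ) D := by unfold Sc; positivity
  -- bounds for the noncoprime terms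
  set R : ℝ := 2 * L ^ 3 with hR
  have hRb : ∀ g : ℕ, 1 ≤ g → g ≤ D →
      ∑ b ∈ (Icc 1 X).filter (fun b => ¬ b.Coprime g), |al x b| ≤ R := by
    intro g hg1 hgD
    refine (al_noncop x hx1 g hg1).trans ?_
    have h1 : Real.log g ≤ L := (Real.log_le_log (by exact_mod_cast hg1)
      (by exact_mod_cast hgD)).trans hlD
    have h2 : 0 ≤ Real.log g := Real.log_natCast_nonneg g
    calc 2 * Real.log g * Real.log x ^ 2 ≤ 2 * L * L ^ 2 := by gcongr
      _ = R := by rw [hR]; ring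
  set B : ℝ := C * (Y : ℝ) ^ η with hB
  have hB0 : 0 < B := by positivity
  have hBb : ∀ f : ℕ, f ≤ D → Squarefree f → (KF F : ℝ) ^ f.primeFactors.card ≤ B := by
    intro f hf hsf
    refine (HC f.primeFactors (fun p hp => Nat.prime_of_mem_primeFactors hp)).trans ?_
    rw [Nat.prod_primeFactors_of_squarefree hsf]
    apply mul_le_mul_of_nonneg_left _ hC0.le
    apply Real.rpow_le_rpow (Nat.cast_nonneg _) _ hη0.le
    exact le_trans (by exact_mod_cast hf) hDY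
  -- sizes
  set G : ℝ := x / L ^ U with hG
  have hG0 : 0 < G := by positivity
  have hsx : √x * √x = x := Real.mul_self_sqrt hx0.le
  have hsx0 : 0 < √x := Real.sqrt_pos.2 hx0
  have hYs : (Y : ℝ) ^ (θ / 2) ≤ √x := by
    rw [Real.sqrt_eq_rpow]
    calc (Y : ℝ) ^ (θ / 2) = ((Y : ℝ) ^ θ) ^ ((1 : ℝ) / 2) := by
          rw [← Real.rpow_mul hY0.le]; congr 1; ring
      _ ≤ x ^ ((1 : ℝ) / 2) := Real.rpow_le_rpow (by positivity) hYx (by norm_num)
  have hYhalf : (Y : ℝ) ^ (θ / 4) ≤ √x := by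
    refine le_trans ?_ hYs
    exact Real.rpow_le_rpow_of_exponent_le hY1 (by linarith)
  -- the small conductors
  set BVs : ℝ := ∑ f ∈ Icc 2 F0, ((κ : ℝ) ^ f.primeFactors.card / (Nat.totient f : ℝ)) *
    PA X (al x) f with hBVs
  have hBV := HBV x hxX1 F0 hF0le (by linarith)
  have hlx2 : θ / 4 * L ≤ Real.log (x / 2) := by
    have h1 : (Y : ℝ) ^ (θ / 4) ≤ x / 2 := by
      have h2 : (Y : ℝ) ^ (θ / 4) ≤ √x := hYhalf
      have h3 : √x ≤ x / 2 := by
        have h4 : 2 ≤ √x := by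
          rw [Real.le_sqrt' (by norm_num)]; linarith
        have h4' := mul_le_mul_of_nonneg_right h4 hsx0.le
        rw [hsx] at h4'
        linarith
      linarith
    have h5 := Real.log_le_log (by positivity) h1
    rw [Real.log_rpow hY0] at h5
    exact h5
  have ec : 5 * L * (Sc κ D * (BVs + F0 * (B * R))) ≤ G / 2 := by
    have h1 : BVs ≤ 4 * x * ((4 / θ) ^ A' / L ^ A') := by
      refine hBV.trans ?_
      have h2 : (θ / 4 * L) ^ A' ≤ Real.log (x / 2) ^ A' := pow_le_pow_left₀ (by positivity) hlx2 _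
      calc 4 * x / Real.log (x / 2) ^ A' ≤ 4 * x / (θ / 4 * L) ^ A' :=
            div_le_div_of_nonneg_left (by positivity) (by positivity) h2
        _ = _ := by
            rw [mul_pow, div_pow, div_pow]
            field_simp
    have hBVs0 : 0 ≤ BVs := by
      rw [hBVs]
      apply sum_nonneg
      intro f _
      unfold PA
      positivity
    have h2 : 5 * L * (Sc κ D * BVs) ≤ G / 4 := by
      have h4 : 80 * CS * (4 / θ) ^ A' ≤ L := (le_max_left _ _).trans f2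
      calc 5 * L * (Sc κ D * BVs) ≤
            5 * L * (CS * L ^ (2 * κ) * (4 * x * ((4 / θ) ^ A' / L ^ A'))) := by
            gcongr
        _ = (80 * CS * (4 / θ) ^ A') * (x / 4 * (L ^ (2 * κ + 1) / L ^ A')) := by ring
        _ ≤ L * (x / 4 * (L ^ (2 * κ + 1) / L ^ A')) :=
            mul_le_mul_of_nonneg_right h4 (by positivity)
        _ = G / 4 := by
            rw [hG, hA']
            have : L ^ (U + 2 * κ + 2) = L ^ U * L ^ (2 * κ + 1) * L := by ring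
            rw [this]
            field_simp
    have h4 : 5 * L * (Sc κ D * (F0 * (B * R))) ≤ G / 4 := by
      have h5 : 40 * CS * C * L ^ (2 * κ + 4 + U) ≤ (Y : ℝ) ^ (θ / 4) := f3
      have h6 : 5 * L * (Sc κ D * (F0 * (B * R))) ≤
          10 * CS * C * L ^ (2 * κ + 4) * (Y : ℝ) ^ (θ / 4) * √x := by
        rw [hR, hB]
        have hYη : (Y : ℝ) ^ η ≤ (Y : ℝ) ^ (θ / 4) :=
          Real.rpow_le_rpow_of_exponent_le hY1 hηθ
        calc 5 * L * (Sc κ D * (F0 * (C * (Y : ℝ) ^ η * (2 * L ^ 3)))) ≤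
            5 * L * (CS * L ^ (2 * κ) * (√x * (C * (Y : ℝ) ^ (θ / 4) * (2 * L ^ 3)))) := by
              gcongr
          _ = _ := by ring
      refine h6.trans ?_
      rw [hG, div_div, le_div_iff₀ (by positivity)]
      calc 10 * CS * C * L ^ (2 * κ + 4) * (Y : ℝ) ^ (θ / 4) * √x * (L ^ U * 4) =
          (40 * CS * C * L ^ (2 * κ + 4 + U)) * (Y : ℝ) ^ (θ / 4) * √x := by
            rw [pow_add]
            ring
        _ ≤ (Y : ℝ) ^ (θ / 4) * (Y : ℝ) ^ (θ / 4) * √x := by gcongr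
        _ = (Y : ℝ) ^ (θ / 2) * √x := by
            rw [← Real.rpow_add hY0]
            congr 2
            ring
        _ ≤ √x * √x := mul_le_mul_of_nonneg_right hYs hsx0.le
        _ = x := hsx
    have h5 : 5 * L * (Sc κ D * (BVs + F0 * (B * R))) = 5 * L * (Sc κ D * BVs) +
        5 * L * (Sc κ D * (F0 * (B * R))) := by ring
    rw [h5]
    linarith
  set S : Finset ℤ := (Icc (-(Y : ℤ)) Y).filter (fun k =>
        ∑ T ∈ (PZ Y ζ).powerset, c T * Eg F X (al x) k (∏ p ∈ T, p) < -G) with hS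
  have hSsub : S ⊆ Icc (-(Y : ℤ)) Y := filter_subset _ _
  have hPp : ∀ p ∈ PZ Y ζ, p.Prime := by
    intro p hp
    unfold PZ at hp
    rw [mem_filter] at hp
    exact hp.2.1
  -- the large sieve part
  set ELS : ℝ := 12 * (1 + Real.log D) * (Real.sqrt (X * ((2 * Y + 1 : ℕ) : ℝ)) / F0 +
          (Real.sqrt X + Real.sqrt ((2 * Y + 1 : ℕ) : ℝ)) + D) *
        (Real.sqrt (∑ b ∈ Icc 1 X, al x b ^ 2) * Real.sqrt (B * S.card)) with hELS
  have hELSb : 5 * L * (Sc κ D * ELS) ≤ C8 / 2 * 13 * L ^ (2 * κ + 3) * (Y : ℝ) ^ μ * √x *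
      √(B * S.card) := by
    have h1 : Real.sqrt (X * ((2 * Y + 1 : ℕ) : ℝ)) / F0 ≤ 8 * (Y : ℝ) ^ μ := by
      have h2 : (x / 2) ^ (1 / 2 - δ') / 2 ≤ F0 := by
        have h3 : (x / 2) ^ (1 / 2 - δ') < F0 + 1 := Nat.lt_floor_add_one _
        have h4 : (1 : ℝ) ≤ F0 := by exact_mod_cast hF01
        linarith
      rw [div_le_iff₀ (by exact_mod_cast hF01)]
      have h5 : Real.sqrt (X * ((2 * Y + 1 : ℕ) : ℝ)) ≤
          4 * ((x / 2) ^ ((1 : ℝ) / 2) * (Y : ℝ) ^ ((1 : ℝ) / 2)) := by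
        rw [← Real.mul_rpow (by positivity) hY0.le, ← Real.sqrt_eq_rpow]
        rw [Real.sqrt_le_left (by positivity), mul_pow, Real.sq_sqrt (by positivity)]
        push_cast
        calc (X : ℝ) * (2 * Y + 1) ≤ x * (2 * Y + 1) :=
              mul_le_mul_of_nonneg_right hXx (by positivity)
          _ ≤ x * (8 * Y) := mul_le_mul_of_nonneg_left (by linarith) hx0.le
          _ = 4 ^ 2 * (x / 2 * Y) := by ring
      refine h5.trans ?_
      have h6 : (x / 2) ^ ((1 : ℝ) / 2) * (Y : ℝ) ^ ((1 : ℝ) / 2) ≤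
          (x / 2) ^ (1 / 2 - δ') * (Y : ℝ) ^ μ := by
        calc (x / 2) ^ ((1 : ℝ) / 2) * (Y : ℝ) ^ ((1 : ℝ) / 2) =
            (x / 2) ^ (1 / 2 - δ') * ((x / 2) ^ δ' * (Y : ℝ) ^ ((1 : ℝ) / 2)) := by
              rw [← mul_assoc, ← Real.rpow_add (by positivity)]
              congr 2
              ring
          _ ≤ (x / 2) ^ (1 / 2 - δ') * ((Y : ℝ) ^ δ' * (Y : ℝ) ^ ((1 : ℝ) / 2)) := by
              apply mul_le_mul_of_nonneg_left _ (by positivity)
              apply mul_le_mul_of_nonneg_right _ (by positivity)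
              exact Real.rpow_le_rpow (by positivity) (by linarith) hδ'0.le
          _ ≤ (x / 2) ^ (1 / 2 - δ') * (Y : ℝ) ^ μ := by
              apply mul_le_mul_of_nonneg_left _ (by positivity)
              rw [← Real.rpow_add hY0]
              apply Real.rpow_le_rpow_of_exponent_le hY1
              refine le_trans ?_ (le_max_left _ _)
              linarith
      calc 4 * ((x / 2) ^ ((1 : ℝ) / 2) * (Y : ℝ) ^ ((1 : ℝ) / 2)) ≤
          4 * ((x / 2) ^ (1 / 2 - δ') * (Y : ℝ) ^ μ) := by linarith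
        _ = 8 * (Y : ℝ) ^ μ * ((x / 2) ^ (1 / 2 - δ') / 2) := by ring
        _ ≤ 8 * (Y : ℝ) ^ μ * F0 := mul_le_mul_of_nonneg_left h2 (by positivity)
    have h2 : Real.sqrt X ≤ (Y : ℝ) ^ μ := by
      refine (Real.sqrt_le_sqrt hXx).trans (hsxY.trans hYμ1)
    have h3 : Real.sqrt ((2 * Y + 1 : ℕ) : ℝ) ≤ 3 * (Y : ℝ) ^ μ := by
      have h4 : Real.sqrt ((2 * Y + 1 : ℕ) : ℝ) ≤ 3 * (Y : ℝ) ^ ((1 : ℝ) / 2) := by
        rw [← Real.sqrt_eq_rpow, Real.sqrt_le_left (by positivity), mul_pow, Real.sq_sqrt hY0.le]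
        push_cast
        linarith
      linarith
    have h4 : Real.sqrt (∑ b ∈ Icc 1 X, al x b ^ 2) ≤ √x * L := by
      refine (Real.sqrt_le_sqrt (al_sq x hx1)).trans ?_
      rw [Real.sqrt_mul hx0.le, Real.sqrt_sq hlx0]
      exact mul_le_mul_of_nonneg_left hlx hsx0.le
    have h5 : ELS ≤ 12 * (2 * L) * (13 * (Y : ℝ) ^ μ) * ((√x * L) * √(B * S.card)) := by
      rw [hELS]
      have h6 : 1 + Real.log D ≤ 2 * L := by linarith
      have h7 : Real.sqrt (X * ((2 * Y + 1 : ℕ) : ℝ)) / F0 + (Real.sqrt X +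
          Real.sqrt ((2 * Y + 1 : ℕ) : ℝ)) + D ≤ 13 * (Y : ℝ) ^ μ := by
        linarith
      gcongr
    calc 5 * L * (Sc κ D * ELS) ≤ 5 * L * (CS * L ^ (2 * κ) *
        (12 * (2 * L) * (13 * (Y : ℝ) ^ μ) * ((√x * L) * √(B * S.card)))) := by
          have : 0 ≤ ELS := by rw [hELS]; positivity
          gcongr
      _ = _ := by
          rw [hC8]
          ring
  -- the total error
  have herr := err_tot eg_true tw_true bes_true lsi_true F hF X Y F0 D (al x) S hSsub hF01 hF0D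
    (cN (PZ Y ζ) c) (5 * L) (by positivity) (by
      intro d
      unfold cN
      split_ifs
      · exact hc1 _
      · rw [abs_zero]; positivity) (by
      intro d hd
      unfold cN at hd
      by_contra h
      rw [if_neg (fun h2 => h h2.1)] at hd
      exact hd rfl) R hRb B hBb
  have hcD : ∀ T ⊆ PZ Y ζ, c T ≠ 0 → ∏ p ∈ T, p ≤ D := by
    intro T hT hcT
    exact (Nat.le_floor (hc2 T hT hcT)).trans (le_max_left _ _)
  have hswap : ∑ d ∈ Icc 1 D, cN (PZ Y ζ) c d * ∑ k ∈ S, Eg F X (al x) k d =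
      ∑ k ∈ S, ∑ T ∈ (PZ Y ζ).powerset, c T * Eg F X (al x) k (∏ p ∈ T, p) := by
    rw [conv (PZ Y ζ) hPp c D hcD (fun d => ∑ k ∈ S, Eg F X (al x) k d), sum_comm]
    apply sum_congr rfl
    intro T _
    rw [mul_sum]
  rw [hswap] at herr
  have hsum : ∑ k ∈ S, ∑ T ∈ (PZ Y ζ).powerset, c T * Eg F X (al x) k (∏ p ∈ T, p) ≤
      S.card * (-G) := by
    rw [← nsmul_eq_mul, ← sum_const]
    apply sum_le_sum
    intro k hk
    rw [hS, mem_filter] at hk
    exact hk.2.le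
  have habs := (abs_le.1 herr).1
  -- conclusion
  have hfin : (S.card : ℝ) * (G / 2) ≤ C8 / 2 * 13 * L ^ (2 * κ + 3) * (Y : ℝ) ^ μ * √x *
      √(B * S.card) := by
    have h1 : 5 * L * (Sc κ D * (S.card * (BVs + F0 * (B * R)) + ELS)) =
        S.card * (5 * L * (Sc κ D * (BVs + F0 * (B * R)))) + 5 * L * (Sc κ D * ELS) := by ring
    have h2 : (S.card : ℝ) * (5 * L * (Sc κ D * (BVs + F0 * (B * R)))) ≤ S.card * (G / 2) :=
      mul_le_mul_of_nonneg_left ec (by positivity)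
    have h3 : (S.card : ℝ) * G ≤
        5 * L * (Sc κ D * (S.card * (BVs + F0 * (B * R)) + ELS)) := by
      linarith
    rw [h1] at h3
    linarith
  rcases Nat.eq_zero_or_pos S.card with h0 | h0
  · rw [h0]
    push_cast
    positivity
  have hcard : (0 : ℝ) < S.card := by exact_mod_cast h0
  set W : ℝ := C8 * 13 * L ^ (2 * κ + 3 + U) * (Y : ℝ) ^ μ with hW
  have hW0 : 0 ≤ W := by positivity
  have h1 : (S.card : ℝ) * √x ≤ W * √(B * S.card) := by
    have e1 : (S.card : ℝ) * √x * (√x / (2 * L ^ U)) ≤ W * √(B * S.card) * (√x / (2 * L ^ U)) := by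
      calc (S.card : ℝ) * √x * (√x / (2 * L ^ U)) = S.card * ((√x * √x) / L ^ U / 2) := by
            field_simp
        _ = S.card * (G / 2) := by rw [hsx, hG]
        _ ≤ _ := hfin
        _ = W * √(B * S.card) * (√x / (2 * L ^ U)) := by
            rw [hW, pow_add L (2 * κ + 3) U]
            field_simp
    exact le_of_mul_le_mul_right e1 (by positivity)
  have h2 : (S.card : ℝ) * x ≤ W ^ 2 * B := by
    have e1 : ((S.card : ℝ) * √x) * ((S.card : ℝ) * √x) ≤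
        (W * √(B * S.card)) * (W * √(B * S.card)) :=
      mul_le_mul h1 h1 (by positivity) (by positivity)
    have e2 : √(B * S.card) * √(B * S.card) = B * S.card := Real.mul_self_sqrt (by positivity)
    have e3 : ((S.card : ℝ) * √x) * ((S.card : ℝ) * √x) = (S.card * x) * S.card := by
      calc _ = S.card * S.card * (√x * √x) := by ring
        _ = _ := by rw [hsx]; ring
    have e4 : (W * √(B * S.card)) * (W * √(B * S.card)) = (W ^ 2 * B) * S.card := by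
      calc _ = W ^ 2 * (√(B * S.card) * √(B * S.card)) := by ring
        _ = _ := by rw [e2]; ring
    rw [e3, e4] at e1
    exact le_of_mul_le_mul_right e1 hcard
  have h3 : W ^ 2 * B ≤ (Y : ℝ) ^ (ε / 4 + 2 * μ + η) := by
    have e1 : W ^ 2 * B = (C8 ^ 2 * 169 * C * L ^ (2 * (2 * κ + 3 + U))) *
        ((Y : ℝ) ^ μ * (Y : ℝ) ^ μ * (Y : ℝ) ^ η) := by
      rw [hW, hB]
      ring
    rw [e1]
    calc (C8 ^ 2 * 169 * C * L ^ (2 * (2 * κ + 3 + U))) *
        ((Y : ℝ) ^ μ * (Y : ℝ) ^ μ * (Y : ℝ) ^ η) ≤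
        (Y : ℝ) ^ (ε / 4) * ((Y : ℝ) ^ μ * (Y : ℝ) ^ μ * (Y : ℝ) ^ η) :=
          mul_le_mul_of_nonneg_right f4 (by positivity)
      _ = _ := by
          rw [← Real.rpow_add hY0, ← Real.rpow_add hY0, ← Real.rpow_add hY0]
          congr 1
          ring
  have h4 : (S.card : ℝ) * (Y : ℝ) ^ θ ≤ (Y : ℝ) ^ (ε / 4 + 2 * μ + η) :=
    (mul_le_mul_of_nonneg_left hYx hcard.le).trans (h2.trans h3)
  have h5 : (S.card : ℝ) ≤ (Y : ℝ) ^ (ε / 4 + 2 * μ + η - θ) := by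
    rw [Real.rpow_sub hY0, le_div_iff₀ (by positivity)]
    exact h4
  refine h5.trans (Real.rpow_le_rpow_of_exponent_le hY1 ?_)
  have h6 : 2 * μ - θ ≤ E + ε / 8 := by
    rw [hμ]
    rcases max_cases (1 / 2 + δ') τ' with h8 | h8
    · rw [h8.1]
      linarith
    · rw [h8.1]
      linarith
  linarith

end Pool.Agent.Y882.GP
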