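import Pool.Agent.Y882.GP.Quad

/-! `n = G(p) + P_r` for polynomials `G` with bounded numbers of roots modulo primes. -/

set_option autoImplicit false

open Finset Polynomial Filter Topology

namespace Pool.Agent.Y882.GP

open Pool.Agent.Y882
open Pool.Agent.Y882.PX (ro KF)

theorem sum_tel (A : ℝ) (hA : 0 ≤ A) (Zn : ℕ) (hZ : 1 ≤ Zn) :
    ∑ q ∈ (Icc 1 Zn).filter Nat.Prime, A / ((q : ℝ) * ((q : ℝ) - 1)) ≤ A := by
  have h3 : ∀ n : ℕ, ∑ p ∈ Icc 2 (n + 1), A / ((p : ℝ) * ((p : ℝ) - 1)) = A - A / ((n : ℝ) + 1) := by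
    intro n
    induction n with
    | zero => simp
    | succ n ih =>
      rw [sum_Icc_succ_top (by omega), ih]
      push_cast
      have e1 : (n : ℝ) + 1 ≠ 0 := by positivity
      have e2 : (n : ℝ) + 1 + 1 ≠ 0 := by positivity
      field_simp
      ring
  have h6 := h3 (Zn - 1)
  rw [Nat.sub_add_cancel hZ] at h6
  calc ∑ q ∈ (Icc 1 Zn).filter Nat.Prime, A / ((q : ℝ) * ((q : ℝ) - 1)) ≤
      ∑ p ∈ Icc 2 Zn, A / ((p : ℝ) * ((p : ℝ) - 1)) := by
        apply sum_le_sum_of_subset_of_nonneg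
        · intro p hp
          rw [mem_filter, mem_Icc] at hp
          rw [mem_Icc]
          exact ⟨hp.2.two_le, hp.1.2⟩
        · intro p hp _
          rw [mem_Icc] at hp
          have : (2 : ℝ) ≤ p := by exact_mod_cast hp.1
          apply div_nonneg hA
          nlinarith
    _ ≤ A := by
        rw [h6]
        have : 0 ≤ A / (((Zn - 1 : ℕ) : ℝ) + 1) := by positivity
        linarith

theorem fac_low (K q a : ℕ) (hq : 2 ≤ q) (h1 : a ≤ K) (h2 : a + 2 ≤ q) :
    (if q < K + 2 then (1 / ((K : ℝ) + 1)) else 1) *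
      Real.exp (-((K : ℝ) / q + (K : ℝ) * (K + 1) ^ 2 / ((q : ℝ) * ((q : ℝ) - 1)))) ≤
      1 - (a : ℝ) / ((q : ℝ) - 1) := by
  have hq2 : (2 : ℝ) ≤ q := by exact_mod_cast hq
  have hK0 : (0 : ℝ) ≤ K := Nat.cast_nonneg K
  have haK : (a : ℝ) ≤ K := by exact_mod_cast h1
  have haq : (a : ℝ) + 2 ≤ q := by exact_mod_cast h2
  have hqm : (0 : ℝ) < (q : ℝ) - 1 := by linarith
  have hexp1 : Real.exp (-((K : ℝ) / q + (K : ℝ) * (K + 1) ^ 2 / ((q : ℝ) * ((q : ℝ) - 1)))) ≤ 1 := by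
    rw [Real.exp_le_one_iff]
    have : 0 ≤ (K : ℝ) / q + (K : ℝ) * (K + 1) ^ 2 / ((q : ℝ) * ((q : ℝ) - 1)) := by
      apply add_nonneg (by positivity)
      apply div_nonneg (by positivity)
      exact mul_nonneg (by linarith) hqm.le
    linarith
  by_cases hqK : q < K + 2
  · rw [if_pos hqK]
    have hqK' : (q : ℝ) ≤ K + 1 := by
      have : q ≤ K + 1 := by omega
      exact_mod_cast this
    have h3 : 1 / ((K : ℝ) + 1) ≤ 1 - (a : ℝ) / ((q : ℝ) - 1) := by
      have h4 : 1 / ((q : ℝ) - 1) ≤ 1 - (a : ℝ) / ((q : ℝ) - 1) := by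
        rw [le_sub_iff_add_le, ← add_div, div_le_one hqm]
        linarith
      refine le_trans ?_ h4
      exact one_div_le_one_div_of_le hqm (by linarith)
    refine le_trans ?_ h3
    have := mul_le_mul_of_nonneg_left hexp1 (show (0 : ℝ) ≤ 1 / ((K : ℝ) + 1) by positivity)
    linarith
  · rw [if_neg hqK, one_mul]
    push Not at hqK
    have hqK' : (K : ℝ) + 2 ≤ q := by exact_mod_cast hqK
    have hd : (0 : ℝ) < (q : ℝ) - 1 - K := by linarith
    have h3 : 1 - (K : ℝ) / ((q : ℝ) - 1) ≤ 1 - (a : ℝ) / ((q : ℝ) - 1) := by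
      have := div_le_div_of_nonneg_right haK hqm.le
      linarith
    refine le_trans ?_ h3
    have h4 : (K : ℝ) / ((q : ℝ) - 1 - K) ≤
        (K : ℝ) / q + (K : ℝ) * (K + 1) ^ 2 / ((q : ℝ) * ((q : ℝ) - 1)) := by
      have e : (K : ℝ) / q + (K : ℝ) * (K + 1) ^ 2 / ((q : ℝ) * ((q : ℝ) - 1)) -
          (K : ℝ) / ((q : ℝ) - 1 - K) =
          K * (K + 1) * ((K + 1) * ((q : ℝ) - 1 - K) - ((q : ℝ) - 1)) /
            ((q : ℝ) * ((q : ℝ) - 1) * ((q : ℝ) - 1 - K)) := by
        have e1 : (q : ℝ) ≠ 0 := by linarith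
        field_simp
        ring
      have h5 : 0 ≤ (K : ℝ) / q + (K : ℝ) * (K + 1) ^ 2 / ((q : ℝ) * ((q : ℝ) - 1)) -
          (K : ℝ) / ((q : ℝ) - 1 - K) := by
        rw [e]
        apply div_nonneg
        · apply mul_nonneg (by positivity)
          nlinarith
        · positivity
      linarith
    have h6 : ((q : ℝ) - 1) / ((q : ℝ) - 1 - K) ≤ Real.exp ((K : ℝ) / ((q : ℝ) - 1 - K)) := by
      have h7 := Real.add_one_le_exp ((K : ℝ) / ((q : ℝ) - 1 - K))
      have h8 : ((q : ℝ) - 1) / ((q : ℝ) - 1 - K) = (K : ℝ) / ((q : ℝ) - 1 - K) + 1 := by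
        field_simp
        ring
      rw [h8]
      exact h7
    calc Real.exp (-((K : ℝ) / q + (K : ℝ) * (K + 1) ^ 2 / ((q : ℝ) * ((q : ℝ) - 1)))) ≤
        Real.exp (-((K : ℝ) / ((q : ℝ) - 1 - K))) := Real.exp_le_exp.2 (by linarith)
      _ = (Real.exp ((K : ℝ) / ((q : ℝ) - 1 - K)))⁻¹ := Real.exp_neg _
      _ ≤ (((q : ℝ) - 1) / ((q : ℝ) - 1 - K))⁻¹ := inv_anti₀ (div_pos hqm hd) h6
      _ = 1 - (K : ℝ) / ((q : ℝ) - 1) := by
          rw [inv_div]
          field_simp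

/-- lower bound for the partial singular product when there are at most `k + 1` roots -/
theorem sing_low_gen (k : ℕ) : ∃ c0 : ℝ, 0 < c0 ∧ ∀ (G : ℤ[X]) (n : ℕ),
    (∀ q : ℕ, q.Prime → rs G (-(n : ℤ)) q ≤ k + 1) →
    (∀ q : ℕ, q.Prime → rs G (-(n : ℤ)) q + 2 ≤ q) →
    ∀ z : ℝ, 3 ≤ z → c0 / Real.log z ^ k ≤ sing G n z := by
  obtain ⟨C, hC⟩ := Pool.Agent.Erdos456.Mert.mertens_inv
  obtain ⟨c1, hc1, hup⟩ := mert_up
  set K : ℕ := k + 1 with hK
  set A : ℝ := (K : ℝ) * (K + 1) ^ 2 with hA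
  have hA0 : 0 ≤ A := by positivity
  set B : ℝ := (1 / ((K : ℝ) + 1)) ^ (K + 2) with hB
  have hB0 : 0 < B := by positivity
  refine ⟨B * Real.exp (-(K * C + A)) / c1, by positivity, fun G n h1' h2' z hz => ?_⟩
  set Zn : ℕ := ⌊z⌋₊ with hZn
  have hZ3 : 3 ≤ Zn := Nat.le_floor (by exact_mod_cast hz)
  have hZr : (3 : ℝ) ≤ Zn := by exact_mod_cast hZ3
  have h1 := hC Zn hZ3
  have hlZ : 0 < Real.log Zn := Real.log_pos (by linarith)
  have hlz : Real.log Zn ≤ Real.log z := Real.log_le_log (by linarith) (Nat.floor_le (by linarith))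
  have hup1 := hup Zn hZ3
  set PR := (Icc 1 Zn).filter Nat.Prime with hPR
  have hone : (1 / ((K : ℝ) + 1)) ≤ 1 := by
    rw [div_le_one (by positivity)]
    have : (0 : ℝ) ≤ K := Nat.cast_nonneg K
    linarith
  have hone0 : 0 < (1 / ((K : ℝ) + 1)) := by positivity
  have hBp : B ≤ ∏ q ∈ PR, (if q < K + 2 then (1 / ((K : ℝ) + 1)) else 1) := by
    rw [prod_ite, prod_const_one, mul_one, prod_const, hB]
    apply pow_le_pow_of_le_one hone0.le hone
    calc (PR.filter (fun q => q < K + 2)).card ≤ (range (K + 2)).card := by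
          apply card_le_card
          intro q hq
          rw [mem_filter] at hq
          exact mem_range.2 hq.2
      _ = K + 2 := card_range _
  have hlow : B * Real.exp (-(K * (Real.log (Real.log Zn) + C) + A)) ≤ locP G (-(n : ℤ)) z := by
    unfold locP
    rw [← hZn, ← hPR]
    calc B * Real.exp (-(K * (Real.log (Real.log Zn) + C) + A)) ≤
        B * Real.exp (-(∑ q ∈ PR, ((K : ℝ) / q + A / ((q : ℝ) * ((q : ℝ) - 1))))) := by
          apply mul_le_mul_of_nonneg_left _ hB0.le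
          apply Real.exp_le_exp.2
          have h4 := (abs_le.1 h1).2
          have h5 : ∑ q ∈ PR, ((K : ℝ) / q + A / ((q : ℝ) * ((q : ℝ) - 1))) ≤
              K * ∑ q ∈ PR, 1 / (q : ℝ) + A := by
            rw [sum_add_distrib, mul_sum]
            apply add_le_add
            · apply le_of_eq
              apply sum_congr rfl
              intro q _
              ring
            · exact sum_tel A hA0 Zn (by omega)
          have h6 : (K : ℝ) * ∑ q ∈ PR, 1 / (q : ℝ) ≤ K * (Real.log (Real.log Zn) + C) := by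
            apply mul_le_mul_of_nonneg_left _ (Nat.cast_nonneg K)
            linarith
          linarith
      _ ≤ (∏ q ∈ PR, (if q < K + 2 then (1 / ((K : ℝ) + 1)) else 1)) *
          ∏ q ∈ PR, Real.exp (-((K : ℝ) / q + A / ((q : ℝ) * ((q : ℝ) - 1)))) := by
          rw [← sum_neg_distrib, Real.exp_sum]
          apply mul_le_mul_of_nonneg_right hBp
          exact prod_nonneg fun _ _ => (Real.exp_pos _).le
      _ = ∏ q ∈ PR, ((if q < K + 2 then (1 / ((K : ℝ) + 1)) else 1) *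
          Real.exp (-((K : ℝ) / q + A / ((q : ℝ) * ((q : ℝ) - 1))))) := by
          rw [prod_mul_distrib]
      _ ≤ _ := by
          apply Finset.prod_le_prod
          · intro q _
            apply mul_nonneg _ (Real.exp_pos _).le
            split_ifs
            · exact hone0.le
            · norm_num
          · intro q hq
            have hqp := (mem_filter.1 hq).2
            exact fac_low K q _ hqp.two_le (h1' q hqp) (h2' q hqp)
  rw [locP_sing] at hlow
  have h2 : B * Real.exp (-(K * (Real.log (Real.log Zn) + C) + A)) =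
      B * Real.exp (-(K * C + A)) / Real.log Zn ^ K := by
    rw [show -((K : ℝ) * (Real.log (Real.log Zn) + C) + A) = -(K * C + A) -
      K * Real.log (Real.log Zn) by ring, Real.exp_sub, Real.exp_nat_mul, Real.exp_log hlZ]
    ring
  rw [h2] at hlow
  have hs := sing_nonneg G n z
  have h3 : sing G n z * ∏ q ∈ PR, (1 - 1 / (q : ℝ)) ≤ sing G n z * (c1 / Real.log Zn) :=
    mul_le_mul_of_nonneg_left hup1 hs
  have h4 := hlow.trans h3
  have hcc : 0 < B * Real.exp (-(K * C + A)) := by positivity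
  calc B * Real.exp (-(K * C + A)) / c1 / Real.log z ^ k ≤
      B * Real.exp (-(K * C + A)) / c1 / Real.log Zn ^ k := by
        apply div_le_div_of_nonneg_left (by positivity) (by positivity)
        exact pow_le_pow_left₀ hlZ.le hlz k
    _ = B * Real.exp (-(K * C + A)) / Real.log Zn ^ K * (Real.log Zn / c1) := by
        rw [hK, pow_succ]
        field_simp
    _ ≤ sing G n z * (c1 / Real.log Zn) * (Real.log Zn / c1) :=
        mul_le_mul_of_nonneg_right h4 (by positivity)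
    _ = sing G n z := by field_simp

open Classical in
/-- few exceptions for every polynomial with at most `k + 1` unit roots modulo all primes -/
theorem gen (G : ℤ[X]) (hG : 1 ≤ G.natDegree) (hlc : 0 < G.leadingCoeff) (k : ℕ) (P : ℕ → Prop)
    (hP1 : ∀ n, P n → ∀ q : ℕ, q.Prime → rs G (-(n : ℤ)) q ≤ k + 1)
    (hP2 : ∀ n, P n → ∀ q : ℕ, q.Prime → rs G (-(n : ℤ)) q + 2 ≤ q) (r : ℕ) (θ ε : ℝ)
    (hθ0 : 0 < θ) (hθ1 : θ * G.natDegree ≤ 1) (hr : 4 < (1 + θ) * (r + 1)) (hε : 0 < ε) :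
    ∃ δ C : ℝ, 0 < δ ∧ 0 < C ∧ ∀ X : ℕ, 1 ≤ X →
      (((Icc 1 X).filter (fun n : ℕ => P n ∧
        ((good G r n ((n : ℝ) ^ θ)).card : ℝ) < δ * (n : ℝ) ^ θ / Real.log n ^ (k + 2))).card : ℝ) ≤
      C * (X : ℝ) ^ (max (max (2 / 3) (1 - θ)) (4 / ((r : ℝ) + 1) - θ) + ε) := by
  have hGr : (1 : ℝ) ≤ G.natDegree := by exact_mod_cast hG
  have hθle : θ ≤ 1 := by nlinarith
  obtain ⟨δ, C, hδ, hC, H⟩ := schz G hG hlc r θ ε hθ0 hθ1 hr hε
  obtain ⟨c0, hc0, HS⟩ := sing_low_gen k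
  have hE0 : (2 : ℝ) / 3 ≤ max (max (2 / 3) (1 - θ)) (4 / ((r : ℝ) + 1) - θ) :=
    (le_max_left _ _).trans (le_max_left _ _)
  obtain ⟨N1, hN1⟩ := Filter.eventually_atTop.1
    ((tendsto_natCast_atTop_atTop (R := ℝ)).eventually
      ((tendsto_rpow_atTop hθ0).eventually_ge_atTop (3 : ℝ)))
  refine ⟨δ * c0, C + (N1 + 2 : ℕ), by positivity, by positivity, fun X hX => ?_⟩
  have hXr : (1 : ℝ) ≤ X := by exact_mod_cast hX
  have hsub : (Icc 1 X).filter (fun n : ℕ => P n ∧
      ((good G r n ((n : ℝ) ^ θ)).card : ℝ) < δ * c0 * (n : ℝ) ^ θ / Real.log n ^ (k + 2)) ⊆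
      (Icc 1 X).filter (fun N : ℕ => ((good G r N ((N : ℝ) ^ θ)).card : ℝ) <
        δ * sing G N ((N : ℝ) ^ θ) * ((N : ℝ) ^ θ / Real.log N ^ 2)) ∪ range (N1 + 2) := by
    intro n hn
    rw [mem_filter] at hn
    obtain ⟨hnX, hodd, hlt⟩ := hn
    rw [mem_union]
    by_cases hsmall : n < N1 + 2
    · right
      exact mem_range.2 hsmall
    · left
      push Not at hsmall
      have hn3 : (3 : ℝ) ≤ (n : ℝ) ^ θ := hN1 n (by omega)
      have hn2 : (2 : ℝ) ≤ n := by
        have : 2 ≤ n := by omega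
        exact_mod_cast this
      have hn0 : (0 : ℝ) < n := by linarith
      have hln : 0 < Real.log n := Real.log_pos (by linarith)
      rw [mem_filter]
      refine ⟨hnX, ?_⟩
      have hs := HS G n (hP1 n hodd) (hP2 n hodd) ((n : ℝ) ^ θ) hn3
      have hlog : Real.log ((n : ℝ) ^ θ) ≤ Real.log n := by
        rw [Real.log_rpow hn0]
        have : θ * Real.log n ≤ 1 * Real.log n := mul_le_mul_of_nonneg_right (by linarith) hln.le
        linarith
      have hlog0 : 0 < Real.log ((n : ℝ) ^ θ) := Real.log_pos (by linarith)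
      have hs2 : c0 / Real.log n ^ k ≤ sing G n ((n : ℝ) ^ θ) :=
        le_trans (div_le_div_of_nonneg_left hc0.le (by positivity)
          (pow_le_pow_left₀ hlog0.le hlog k)) hs
      calc ((good G r n ((n : ℝ) ^ θ)).card : ℝ)
          < δ * c0 * (n : ℝ) ^ θ / Real.log n ^ (k + 2) := hlt
        _ = δ * (c0 / Real.log n ^ k) * ((n : ℝ) ^ θ / Real.log n ^ 2) := by
            rw [pow_add]
            field_simp
        _ ≤ _ := by
            apply mul_le_mul_of_nonneg_right _ (by positivity)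
            exact mul_le_mul_of_nonneg_left hs2 hδ.le
  have hXE : (1 : ℝ) ≤ (X : ℝ) ^ (max (max (2 / 3) (1 - θ)) (4 / ((r : ℝ) + 1) - θ) + ε) :=
    Real.one_le_rpow hXr (by linarith)
  have h1 := card_le_card hsub
  have h2 := card_union_le ((Icc 1 X).filter (fun N : ℕ =>
        ((good G r N ((N : ℝ) ^ θ)).card : ℝ) < δ * sing G N
        ((N : ℝ) ^ θ) * ((N : ℝ) ^ θ / Real.log N ^ 2))) (range (N1 + 2))
  rw [card_range] at h2
  have h3 := H X hX
  calc (((Icc 1 X).filter (fun n : ℕ => P n ∧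
        ((good G r n ((n : ℝ) ^ θ)).card : ℝ) < δ * c0 * (n : ℝ) ^ θ /
          Real.log n ^ (k + 2))).card : ℝ) ≤
      (((Icc 1 X).filter (fun N : ℕ => ((good G r N
        ((N : ℝ) ^ θ)).card : ℝ) < δ * sing G N
        ((N : ℝ) ^ θ) * ((N : ℝ) ^ θ / Real.log N ^ 2))).card : ℝ) + ((N1 + 2 : ℕ) : ℝ) := by
        exact_mod_cast h1.trans h2
    _ ≤ C * (X : ℝ) ^ (max (max (2 / 3) (1 - θ)) (4 / ((r : ℝ) + 1) - θ) + ε) +
        ((N1 + 2 : ℕ) : ℝ) * (X : ℝ) ^ (max (max (2 / 3) (1 - θ)) (4 / ((r : ℝ) + 1) - θ) + ε) := by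
        apply add_le_add h3
        exact le_mul_of_one_le_right (Nat.cast_nonneg _) hXE
    _ = _ := by ring

end Pool.Agent.Y882.GP
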