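import Pool.Agent.Y882.GP.Low
import Pool.Agent.Y882.PX.MerY
import Pool.Agent.Y882.PX.LowX

/-! Mertens estimate for the densities at primes. -/

set_option autoImplicit false

namespace Pool.Agent.Y882.GP

open Finset Polynomial Filter
open Pool.Agent.Y882
open Pool.Agent.W23.DC
open Pool.Agent.Y882.PX (ro KF)

theorem ro_le_rs (F : ℤ[X]) (k : ℤ) (p : ℕ) (hp : p.Prime) :
    ro F k p ≤ rs F k p + (if p ∣ (F.eval 0 + k).natAbs then 1 else 0) := by
  classical
  rw [PX.ro_eq]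
  unfold rs Rt
  have h1 : (range p).filter (fun n : ℕ => (p : ℤ) ∣ F.eval (n : ℤ) + k) ⊆
      (range p).filter (fun a : ℕ => (p : ℤ) ∣ F.eval (a : ℤ) + k ∧ a.Coprime p) ∪
      (if p ∣ (F.eval 0 + k).natAbs then {0} else ∅) := by
    intro a ha
    rw [mem_filter, mem_range] at ha
    rw [mem_union]
    by_cases ha0 : a = 0
    · right
      subst ha0
      have : p ∣ (F.eval 0 + k).natAbs := Int.natCast_dvd.1 (by simpa using ha.2)
      rw [if_pos this]
      exact mem_singleton_self 0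
    · left
      rw [mem_filter, mem_range]
      exact ⟨ha.1, ha.2, (Nat.coprime_of_lt_prime ha0 ha.1 hp).symm⟩
  refine (card_le_card h1).trans ((card_union_le _ _).trans ?_)
  apply Nat.add_le_add_left
  split_ifs <;> simp

theorem rs_le_pred (F : ℤ[X]) (k : ℤ) (p : ℕ) (hp : p.Prime) : rs F k p ≤ p - 1 := by
  classical
  unfold rs Rt
  have h1 : (range p).filter (fun a : ℕ => (p : ℤ) ∣ F.eval (a : ℤ) + k ∧ a.Coprime p) ⊆
      (range p).erase 0 := by
    intro a ha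
    rw [mem_filter] at ha
    rw [mem_erase]
    refine ⟨?_, ha.1⟩
    rintro rfl
    have := ha.2.2
    rw [Nat.coprime_zero_left] at this
    exact hp.one_lt.ne' this
  refine (card_le_card h1).trans ?_
  rw [card_erase_of_mem (mem_range.2 hp.pos), card_range]

theorem diff_abs (F : ℤ[X]) (hF : 1 ≤ F.natDegree) (k : ℤ) (p : ℕ) (hp : p.Prime) :
    |(rs F k p : ℝ) / ((p : ℝ) - 1) - (ro F k p : ℝ) / p| ≤
      (KF F : ℝ) / ((p : ℝ) * ((p : ℝ) - 1)) +
        (if p ∣ (F.eval 0 + k).natAbs then 1 / ((p : ℝ) - 1) else 0) := by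
  have hp2 : (2 : ℝ) ≤ p := by exact_mod_cast hp.two_le
  have hp1 : (0 : ℝ) < (p : ℝ) - 1 := by linarith
  have hp0 : (0 : ℝ) < (p : ℝ) := by linarith
  have h1 : (rs F k p : ℝ) ≤ ro F k p := by exact_mod_cast rs_le_ro F k p
  have h2 : (ro F k p : ℝ) ≤ rs F k p + (if p ∣ (F.eval 0 + k).natAbs then 1 else 0) := by
    have := ro_le_rs F k p hp
    have h3 : ((ro F k p : ℕ) : ℝ) ≤ ((rs F k p + (if p ∣ (F.eval 0 + k).natAbs then 1 else 0) : ℕ)
      : ℝ) := by exact_mod_cast this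
    push_cast at h3
    exact h3
  have h3 : (ro F k p : ℝ) ≤ KF F := by exact_mod_cast PX.ro_le F hF k p hp
  have e1 : (rs F k p : ℝ) / ((p : ℝ) - 1) - (ro F k p : ℝ) / p =
      (ro F k p : ℝ) / ((p : ℝ) * ((p : ℝ) - 1)) - ((ro F k p : ℝ) - rs F k p) / ((p : ℝ) - 1) := by
    field_simp
    ring
  have h4 : 0 ≤ (ro F k p : ℝ) / ((p : ℝ) * ((p : ℝ) - 1)) := by positivity
  have h5 : (ro F k p : ℝ) / ((p : ℝ) * ((p : ℝ) - 1)) ≤
      (KF F : ℝ) / ((p : ℝ) * ((p : ℝ) - 1)) :=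
    div_le_div_of_nonneg_right h3 (by positivity)
  have h6 : 0 ≤ ((ro F k p : ℝ) - rs F k p) / ((p : ℝ) - 1) := div_nonneg (by linarith) hp1.le
  have h7 : ((ro F k p : ℝ) - rs F k p) / ((p : ℝ) - 1) ≤
      (if p ∣ (F.eval 0 + k).natAbs then 1 / ((p : ℝ) - 1) else 0) := by
    split_ifs at h2 ⊢
    · apply div_le_div_of_nonneg_right _ hp1.le
      linarith
    · rw [div_le_iff₀ hp1]
      linarith
  rw [e1, abs_le]
  constructor <;> linarith

open Classical in
theorem mer_rs (F : ℤ[X]) (hF : 1 ≤ F.natDegree) (ε₁ ζ η ε : ℝ) (hε₁ : 0 < ε₁) (hζ : ζ ≤ 1 / 2)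
    (hη : 0 < η) (hε : 0 < ε) : ∃ Y0 : ℕ, ∀ Y : ℕ, Y0 ≤ Y →
      (((Icc (-(Y : ℤ)) Y).filter (fun k => F.eval 0 + k ≠ 0 ∧ ¬ Mer (pr Y ε₁ ζ) (tt Y)
        (fun p => (rs F k p : ℝ) / ((p : ℝ) - 1)) ε₁ ζ η)).card : ℝ) ≤ (Y : ℝ) ^ (2 / 3 + ε) := by
  obtain ⟨Y1, H1⟩ := PX.mer_ro F hF ε₁ ζ (η / 2) ε hε₁ hζ (by linarith) hε
  obtain ⟨A, hA⟩ : ∃ A : ℕ, (F.eval 0).natAbs ≤ A := ⟨_, le_rfl⟩
  have ev1 : ∀ᶠ Y : ℕ in atTop, (2 * KF F + 8) * (1 + Real.log Y) ≤ η / 2 * (Y : ℝ) ^ ε₁ := by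
    have h1 : Tendsto (fun x : ℝ => Real.log x / x ^ ε₁) atTop (nhds 0) := by
      have := isLittleO_log_rpow_atTop hε₁
      exact this.tendsto_div_nhds_zero
    have h2 := h1.eventually_le_const
      (show (0 : ℝ) < η / (4 * (2 * KF F + 8)) by positivity)
    have h3 := (tendsto_rpow_atTop hε₁).eventually_ge_atTop (4 * (2 * KF F + 8) / η)
    have h4 := tendsto_natCast_atTop_atTop.eventually (h2.and (h3.and (eventually_gt_atTop (0 : ℝ))))
    filter_upwards [h4] with Y hY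
    obtain ⟨h5, h6, h7⟩ := hY
    have h8 : (0 : ℝ) < (Y : ℝ) ^ ε₁ := by positivity
    rw [div_le_div_iff₀ h8 (by positivity)] at h5
    rw [div_le_iff₀ hη] at h6
    nlinarith
  obtain ⟨Y2, H2⟩ := eventually_atTop.1 (ev1.and (eventually_ge_atTop (A + 3)))
  refine ⟨max Y1 Y2, fun Y hY => ?_⟩
  obtain ⟨e1, e2⟩ := H2 Y ((le_max_right _ _).trans hY)
  refine le_trans ?_ (H1 Y ((le_max_left _ _).trans hY))
  have hY2 : 2 ≤ Y := by omega
  have hYr : (3 : ℝ) ≤ Y := by
    have : 3 ≤ Y := by omega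
    exact_mod_cast this
  have hY0 : (0 : ℝ) < Y := by linarith
  have hl1 : 0 ≤ Real.log Y := Real.log_natCast_nonneg Y
  apply Nat.cast_le.2
  apply card_le_card
  intro k hk
  rw [mem_filter] at hk ⊢
  obtain ⟨hk1, hk0, hk2⟩ := hk
  refine ⟨hk1, fun hM => hk2 ?_⟩
  intro a b ha hab hb
  have h1 := hM a b ha hab hb
  set Q := (pr Y ε₁ ζ).filter (fun p => a ≤ tt Y p ∧ tt Y p < b) with hQ
  have hQp : ∀ p ∈ Q, p.Prime ∧ p ≤ Y ∧ (Y : ℝ) ^ ε₁ ≤ p := by
    intro p hp
    have := PX.pr_mem Y p ε₁ ζ hY2 (mem_filter.1 hp).1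
    refine ⟨this.1, ?_, this.2.1⟩
    have h9 := (mem_filter.1 hp).1
    unfold pr at h9
    exact (mem_Icc.1 (mem_filter.1 h9).1).2
  have hdiff : |∑ p ∈ Q, (rs F k p : ℝ) / ((p : ℝ) - 1) - ∑ p ∈ Q, (ro F k p : ℝ) / p| ≤ η / 2 := by
    rw [← sum_sub_distrib]
    refine (abs_sum_le_sum_abs _ _).trans ?_
    refine (sum_le_sum fun p hp => diff_abs F hF k p (hQp p hp).1).trans ?_
    rw [sum_add_distrib]
    have hYε : (0 : ℝ) < (Y : ℝ) ^ ε₁ := by positivity
    have b1 : ∑ p ∈ Q, (KF F : ℝ) / ((p : ℝ) * ((p : ℝ) - 1)) ≤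
        2 * KF F * (1 + Real.log Y) / (Y : ℝ) ^ ε₁ := by
      calc ∑ p ∈ Q, (KF F : ℝ) / ((p : ℝ) * ((p : ℝ) - 1)) ≤
          ∑ p ∈ Q, (2 * KF F / (Y : ℝ) ^ ε₁) * (1 / (p : ℝ)) := by
            apply sum_le_sum
            intro p hp
            obtain ⟨h3, h4, h5⟩ := hQp p hp
            have hp2 : (2 : ℝ) ≤ p := by exact_mod_cast h3.two_le
            rw [div_mul_div_comm, mul_one, div_le_div_iff₀ (by nlinarith) (by positivity)]
            have h6 : (Y : ℝ) ^ ε₁ ≤ 2 * ((p : ℝ) - 1) := by linarith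
            have h7 : (0 : ℝ) ≤ KF F * p := by positivity
            nlinarith [mul_le_mul_of_nonneg_left h6 h7]
        _ = (2 * KF F / (Y : ℝ) ^ ε₁) * ∑ p ∈ Q, 1 / (p : ℝ) := by rw [mul_sum]
        _ ≤ (2 * KF F / (Y : ℝ) ^ ε₁) * (1 + Real.log Y) := by
            apply mul_le_mul_of_nonneg_left _ (by positivity)
            have h3 := harmonic_le_one_add_log Y
            rw [harmonic_eq_sum_Icc] at h3
            push_cast at h3
            refine le_trans ?_ h3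
            simp_rw [one_div]
            apply sum_le_sum_of_subset_of_nonneg
            · intro p hp
              rw [mem_Icc]
              exact ⟨(hQp p hp).1.one_le, (hQp p hp).2.1⟩
            · intro _ _ _
              positivity
        _ = _ := by ring
    have b2 : ∑ p ∈ Q, (if p ∣ (F.eval 0 + k).natAbs then 1 / ((p : ℝ) - 1) else 0) ≤
        8 * (1 + Real.log Y) / (Y : ℝ) ^ ε₁ := by
      rw [← sum_filter]
      have hm0 : (F.eval 0 + k).natAbs ≠ 0 := Int.natAbs_ne_zero.2 hk0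
      calc ∑ p ∈ Q.filter (fun p => p ∣ (F.eval 0 + k).natAbs), 1 / ((p : ℝ) - 1) ≤
          ∑ p ∈ Q.filter (fun p => p ∣ (F.eval 0 + k).natAbs), 2 / (Y : ℝ) ^ ε₁ := by
            apply sum_le_sum
            intro p hp
            obtain ⟨h3, h4, h5⟩ := hQp p (mem_filter.1 hp).1
            have hp2 : (2 : ℝ) ≤ p := by exact_mod_cast h3.two_le
            rw [div_le_div_iff₀ (by linarith) hYε]
            linarith
        _ = ((Q.filter (fun p => p ∣ (F.eval 0 + k).natAbs)).card : ℝ) * (2 / (Y : ℝ) ^ ε₁) := by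
            rw [sum_const, nsmul_eq_mul]
        _ ≤ (4 * (1 + Real.log Y)) * (2 / (Y : ℝ) ^ ε₁) := by
            apply mul_le_mul_of_nonneg_right _ (by positivity)
            have h3 : (Q.filter (fun p => p ∣ (F.eval 0 + k).natAbs)).card ≤
                (F.eval 0 + k).natAbs.primeFactors.card := by
              apply card_le_card
              intro p hp
              rw [mem_filter] at hp
              rw [Nat.mem_primeFactors]
              exact ⟨(hQp p hp.1).1, hp.2, hm0⟩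
            have h4 := Pool.Agent.H732R2.B2.omega_log _ hm0
            have h5 : Real.log ((F.eval 0 + k).natAbs : ℝ) ≤ 2 * Real.log Y := by
              have h6 : (F.eval 0 + k).natAbs ≤ Y ^ 2 := by
                have h7 : (F.eval 0 + k).natAbs ≤ (F.eval 0).natAbs + k.natAbs :=
                  Int.natAbs_add_le _ _
                have h8 : k.natAbs ≤ Y := by
                  rw [mem_Icc] at hk1
                  omega
                have h9 : 2 * Y ≤ Y ^ 2 := by nlinarith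
                omega
              have h10 := Real.log_le_log (show (0 : ℝ) < ((F.eval 0 + k).natAbs : ℝ) by
                exact_mod_cast Nat.pos_of_ne_zero hm0)
                (show (((F.eval 0 + k).natAbs : ℕ) : ℝ) ≤ (Y : ℝ) ^ 2 by exact_mod_cast h6)
              rw [Real.log_pow] at h10
              push_cast at h10
              exact h10
            have h6 : ((Q.filter (fun p => p ∣ (F.eval 0 + k).natAbs)).card : ℝ) ≤
                ((F.eval 0 + k).natAbs.primeFactors.card : ℝ) := by exact_mod_cast h3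
            linarith
        _ = _ := by ring
    have b3 : 2 * KF F * (1 + Real.log Y) / (Y : ℝ) ^ ε₁ + 8 * (1 + Real.log Y) / (Y : ℝ) ^ ε₁ ≤
        η / 2 := by
      rw [← add_div, div_le_iff₀ hYε]
      linarith
    linarith
  have h2 : |∑ p ∈ Q, (rs F k p : ℝ) / ((p : ℝ) - 1) - Real.log (b / a)| ≤
      |∑ p ∈ Q, (rs F k p : ℝ) / ((p : ℝ) - 1) - ∑ p ∈ Q, (ro F k p : ℝ) / p| +
      |∑ p ∈ Q, (ro F k p : ℝ) / p - Real.log (b / a)| := by
    have : ∑ p ∈ Q, (rs F k p : ℝ) / ((p : ℝ) - 1) - Real.log (b / a) =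
      (∑ p ∈ Q, (rs F k p : ℝ) / ((p : ℝ) - 1) - ∑ p ∈ Q, (ro F k p : ℝ) / p) +
      (∑ p ∈ Q, (ro F k p : ℝ) / p - Real.log (b / a)) := by ring
    rw [this]
    exact abs_add_le _ _
  simp only at h1 ⊢
  linarith

end Pool.Agent.Y882.GP
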