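import Pool.Agent.Y882.GP.Gen

/-! `n = x ^ 3 + P_r` and `n = 2 x ^ 2 + P_r` with `x` prime: local conditions. -/

set_option autoImplicit false

open Finset Polynomial

namespace Pool.Agent.Y882.GP

open Pool.Agent.Y882
open Pool.Agent.Y882.PX (ro KF)

/-- the monomial -/
noncomputable def mo (a : ℤ) (k : ℕ) : ℤ[X] := C a * X ^ k

theorem mo_eval (a : ℤ) (k : ℕ) (x : ℤ) : (mo a k).eval x = a * x ^ k := by
  unfold mo
  simp

theorem mo_deg (a : ℤ) (ha : a ≠ 0) (k : ℕ) : (mo a k).natDegree = k := by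
  unfold mo
  exact natDegree_C_mul_X_pow k a ha

theorem mo_lc (a : ℤ) (k : ℕ) : (mo a k).leadingCoeff = a := by
  unfold mo
  exact leadingCoeff_C_mul_X_pow a k

theorem mo_KF (a : ℤ) (ha : a ≠ 0) (k : ℕ) : KF (mo a k) = max k a.natAbs := by
  unfold KF
  rw [mo_deg a ha, mo_lc]

theorem mo_rs (a : ℤ) (ha : a ≠ 0) (k : ℕ) (hk : 1 ≤ k) (n : ℤ) (q : ℕ) (hq : q.Prime) :
    rs (mo a k) n q ≤ max k a.natAbs := by
  have h4 := (rs_le_ro (mo a k) n q).trans (PX.ro_le (mo a k) (by rw [mo_deg a ha]; exact hk) n q hq)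
  rwa [mo_KF a ha] at h4

theorem rs_two' (G : ℤ[X]) (n : ℤ) (h : ¬ (2 : ℤ) ∣ G.eval 1 + n) : rs G n 2 = 0 := by
  classical
  unfold rs Rt
  rw [card_eq_zero, filter_eq_empty_iff]
  rintro a ha ⟨h1, h2⟩
  rw [mem_range] at ha
  have ha1 : a = 1 := by
    interval_cases a
    · simp at h2
    · rfl
  subst ha1
  exact h (by exact_mod_cast h1)

theorem rs_three' (G : ℤ[X]) (n : ℤ) (h : ¬ ((3 : ℤ) ∣ G.eval 1 + n ∧ (3 : ℤ) ∣ G.eval 2 + n)) :
    rs G n 3 ≤ 1 := by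
  classical
  unfold rs Rt
  rw [card_le_one]
  intro x hx y hy
  rw [mem_filter, mem_range] at hx hy
  obtain ⟨hx1, hx2, hx3⟩ := hx
  obtain ⟨hy1, hy2, hy3⟩ := hy
  by_contra hne
  have hx0 : x ≠ 0 := by rintro rfl; simp at hx3
  have hy0 : y ≠ 0 := by rintro rfl; simp at hy3
  have h : (x = 1 ∧ y = 2) ∨ (x = 2 ∧ y = 1) := by omega
  rcases h with ⟨rfl, rfl⟩ | ⟨rfl, rfl⟩
  · push_cast at hx2 hy2
    exact h ⟨hx2, hy2⟩
  · push_cast at hx2 hy2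
    exact h ⟨hy2, hx2⟩

theorem loc_all (G : ℤ[X]) (n : ℤ) (K : ℕ) (hK : K ≤ 3) (h : ∀ q : ℕ, q.Prime → rs G n q ≤ K)
    (h2 : ¬ (2 : ℤ) ∣ G.eval 1 + n) (h3 : ¬ ((3 : ℤ) ∣ G.eval 1 + n ∧ (3 : ℤ) ∣ G.eval 2 + n))
    (q : ℕ) (hq : q.Prime) : rs G n q + 2 ≤ q := by
  rcases Nat.lt_or_ge q 5 with hq5 | hq5
  · have hq23 : q = 2 ∨ q = 3 := by
      have h2 := hq.two_le
      interval_cases q
      · left; rfl
      · right; rfl
      · norm_num at hq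
    rcases hq23 with rfl | rfl
    · rw [rs_two' G n h2]
    · have := rs_three' G n h3
      omega
  · have := h q hq
    omega

end Pool.Agent.Y882.GP
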