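import Pool.Agent.Y882.GP.Sch

/-! `n = f(p) + P_r` for admissible monic quadratic polynomials. -/

set_option autoImplicit false

open Finset Polynomial Filter Topology

namespace Pool.Agent.Y882.GP

open Pool.Agent.Y882
open Pool.Agent.Y882.PX (ro KF)

theorem mert_up : ∃ c : ℝ, 0 < c ∧ ∀ z : ℕ, 3 ≤ z →
    ∏ p ∈ (Icc 1 z).filter Nat.Prime, (1 - 1 / (p : ℝ)) ≤ c / Real.log z := by
  obtain ⟨C, hC⟩ := Pool.Agent.Erdos456.Mert.mertens_inv
  refine ⟨Real.exp C, Real.exp_pos _, fun z hz => ?_⟩
  have h1 := hC z hz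
  have hz3 : (3 : ℝ) ≤ z := by exact_mod_cast hz
  have hlz : 0 < Real.log z := Real.log_pos (by linarith)
  calc ∏ p ∈ (Icc 1 z).filter Nat.Prime, (1 - 1 / (p : ℝ)) ≤
      ∏ p ∈ (Icc 1 z).filter Nat.Prime, Real.exp (-(1 / (p : ℝ))) := by
        apply Finset.prod_le_prod
        · intro p hp
          have hp2 : (2 : ℝ) ≤ p := by exact_mod_cast (mem_filter.1 hp).2.two_le
          rw [sub_nonneg, div_le_one (by linarith)]
          linarith
        · intro p hp
          have := Real.add_one_le_exp (-(1 / (p : ℝ)))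
          linarith
    _ = Real.exp (-(∑ p ∈ (Icc 1 z).filter Nat.Prime, 1 / (p : ℝ))) := by
        rw [← Real.exp_sum, sum_neg_distrib]
    _ ≤ Real.exp (-(Real.log (Real.log z) - C)) := by
        apply Real.exp_le_exp.2
        have h4 := (abs_le.1 h1).1
        linarith
    _ = Real.exp C / Real.log z := by
        rw [show -(Real.log (Real.log z) - C) = C - Real.log (Real.log z) by ring, Real.exp_sub,
          Real.exp_log hlz]

/-- the quadratic polynomial -/
noncomputable def fq (b c : ℤ) : ℤ[X] := X ^ 2 + C b * X + C c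

theorem fq_eval (b c x : ℤ) : (fq b c).eval x = x ^ 2 + b * x + c := by
  unfold fq
  simp

theorem fq_deg (b c : ℤ) : (fq b c).natDegree = 2 := by
  unfold fq
  compute_degree!

theorem fq_monic (b c : ℤ) : (fq b c).leadingCoeff = 1 := by
  have h : (fq b c).Monic := by
    unfold fq
    monicity!
  exact h

theorem fq_KF (b c : ℤ) : KF (fq b c) = 2 := by
  unfold KF
  rw [fq_deg, fq_monic]
  rfl

theorem rs_two (b c : ℤ) (hbc : Odd (b + c)) (n : ℕ) (hn : Odd n) : rs (fq b c) (-(n : ℤ)) 2 = 0 := by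
  classical
  unfold rs Rt
  rw [card_eq_zero, filter_eq_empty_iff]
  rintro a ha ⟨h1, h2⟩
  rw [mem_range] at ha
  have ha1 : a = 1 := by
    interval_cases a
    · simp at h2
    · rfl
  subst ha1
  rw [fq_eval] at h1
  obtain ⟨k, hk⟩ := hbc
  obtain ⟨m, hm⟩ := hn
  subst hm
  push_cast at h1
  obtain ⟨j, hj⟩ := h1
  omega

theorem rs_three (b c : ℤ) (hb : ¬ (3 : ℤ) ∣ b) (n : ℤ) : rs (fq b c) n 3 ≤ 1 := by
  classical
  unfold rs Rt
  rw [card_le_one]
  intro x hx y hy
  rw [mem_filter, mem_range] at hx hy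
  obtain ⟨hx1, hx2, hx3⟩ := hx
  obtain ⟨hy1, hy2, hy3⟩ := hy
  rw [fq_eval] at hx2 hy2
  by_contra hne
  have hx0 : x ≠ 0 := by rintro rfl; simp at hx3
  have hy0 : y ≠ 0 := by rintro rfl; simp at hy3
  have h : (x = 1 ∧ y = 2) ∨ (x = 2 ∧ y = 1) := by omega
  rcases h with ⟨rfl, rfl⟩ | ⟨rfl, rfl⟩
  · push_cast at hx2 hy2
    apply hb
    omega
  · push_cast at hx2 hy2
    apply hb
    omega

theorem sing_low : ∃ c0 : ℝ, 0 < c0 ∧ ∀ (b c : ℤ), Odd (b + c) → ¬ (3 : ℤ) ∣ b → ∀ n : ℕ, Odd n →
    ∀ z : ℝ, 3 ≤ z → c0 / Real.log z ≤ sing (fq b c) n z := by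
  obtain ⟨C, hC⟩ := Pool.Agent.Erdos456.Mert.mertens_inv
  obtain ⟨c1, hc1, hup⟩ := mert_up
  refine ⟨1 / 2 * Real.exp (-(2 * C + 12)) / c1 , by positivity, fun b c hbc hb n hn z hz => ?_⟩
  set Zn : ℕ := ⌊z⌋₊ with hZn
  have hZ3 : 3 ≤ Zn := Nat.le_floor (by exact_mod_cast hz)
  have hZr : (3 : ℝ) ≤ Zn := by exact_mod_cast hZ3
  have h1 := hC Zn hZ3
  have hlZ : 0 < Real.log Zn := Real.log_pos (by linarith)
  have hlz : Real.log Zn ≤ Real.log z := Real.log_le_log (by linarith) (Nat.floor_le (by linarith))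
  have hup1 := hup Zn hZ3
  have hprod0 : 0 < ∏ q ∈ (Icc 1 Zn).filter Nat.Prime, (1 - 1 / (q : ℝ)) := by
    apply prod_pos
    intro p hp
    have hp2 : (2 : ℝ) ≤ p := by exact_mod_cast (mem_filter.1 hp).2.two_le
    rw [sub_pos, div_lt_one (by linarith)]
    linarith
  set PR := (Icc 1 Zn).filter Nat.Prime with hPR
  have hfac : ∀ q ∈ PR, (if q = 3 then (1 / 2 : ℝ) else 1) *
      Real.exp (-(2 / (q : ℝ) + 12 / ((q : ℝ) * ((q : ℝ) - 1)))) ≤
      1 - (rs (fq b c) (-(n : ℤ)) q : ℝ) / ((q : ℝ) - 1) := by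
    intro q hq
    have hqp := (mem_filter.1 hq).2
    have hq2 : (2 : ℝ) ≤ q := by exact_mod_cast hqp.two_le
    have hexp1 : Real.exp (-(2 / (q : ℝ) + 12 / ((q : ℝ) * ((q : ℝ) - 1)))) ≤ 1 := by
      rw [Real.exp_le_one_iff]
      have : 0 ≤ 2 / (q : ℝ) + 12 / ((q : ℝ) * ((q : ℝ) - 1)) := by
        apply add_nonneg (by positivity)
        apply div_nonneg (by norm_num)
        nlinarith
      linarith
    rcases Nat.lt_or_ge q 5 with hq5 | hq5
    · have hq23 : q = 2 ∨ q = 3 := by
        have h2 := hqp.two_le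
        interval_cases q
        · left; rfl
        · right; rfl
        · norm_num at hqp
      rcases hq23 with rfl | rfl
      · rw [if_neg (by norm_num), rs_two b c hbc n hn, one_mul]
        simpa using hexp1
      · rw [if_pos rfl]
        have h3 : (rs (fq b c) (-(n : ℤ)) 3 : ℝ) ≤ 1 := by exact_mod_cast rs_three b c hb _
        have h4 : (1 / 2 : ℝ) ≤ 1 - (rs (fq b c) (-(n : ℤ)) 3 : ℝ) / (((3 : ℕ) : ℝ) - 1) := by
          push_cast
          linarith
        refine le_trans ?_ h4
        have := mul_le_mul_of_nonneg_left hexp1 (show (0 : ℝ) ≤ 1 / 2 by norm_num)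
        linarith
    · rw [if_neg (by omega), one_mul]
      have hq5r : (5 : ℝ) ≤ q := by exact_mod_cast hq5
      have h3 : (rs (fq b c) (-(n : ℤ)) q : ℝ) ≤ 2 := by
        have h4 := (rs_le_ro (fq b c) (-(n : ℤ)) q).trans
          (PX.ro_le (fq b c) (by rw [fq_deg]; norm_num) (-(n : ℤ)) q hqp)
        rw [fq_KF] at h4
        exact_mod_cast h4
      have h4 : 1 - 2 / ((q : ℝ) - 1) ≤ 1 - (rs (fq b c) (-(n : ℤ)) q : ℝ) / ((q : ℝ) - 1) := by
        have := div_le_div_of_nonneg_right h3 (show (0 : ℝ) ≤ (q : ℝ) - 1 by linarith)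
        linarith
      refine le_trans ?_ h4
      have h5 : 2 / ((q : ℝ) - 3) ≤ 2 / (q : ℝ) + 12 / ((q : ℝ) * ((q : ℝ) - 1)) := by
        rw [div_add_div _ _ (by linarith) (by nlinarith), div_le_div_iff₀ (by linarith) (by
          apply mul_pos (by linarith)
          apply mul_pos <;> linarith)]
        nlinarith
      have h6 : ((q : ℝ) - 1) / (q - 3) ≤ Real.exp (2 / ((q : ℝ) - 3)) := by
        have h7 := Real.add_one_le_exp (2 / ((q : ℝ) - 3))
        have h8 : ((q : ℝ) - 1) / (q - 3) = 2 / ((q : ℝ) - 3) + 1 := by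
          have e2 : (q : ℝ) - 3 ≠ 0 := by linarith
          field_simp
          ring
        rw [h8]
        exact h7
      calc Real.exp (-(2 / (q : ℝ) + 12 / ((q : ℝ) * ((q : ℝ) - 1)))) ≤
          Real.exp (-(2 / ((q : ℝ) - 3))) := Real.exp_le_exp.2 (by linarith)
        _ = (Real.exp (2 / ((q : ℝ) - 3)))⁻¹ := Real.exp_neg _
        _ ≤ (((q : ℝ) - 1) / (q - 3))⁻¹ :=
            inv_anti₀ (div_pos (by linarith) (by linarith)) h6
        _ = 1 - 2 / ((q : ℝ) - 1) := by
            have e2 : (q : ℝ) - 1 ≠ 0 := by linarith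
            rw [inv_div]
            field_simp
            ring
  have hlow : 1 / 2 * Real.exp (-(2 * (Real.log (Real.log Zn) + C) + 12)) ≤
      locP (fq b c) (-(n : ℤ)) z := by
    unfold locP
    rw [← hZn, ← hPR]
    calc 1 / 2 * Real.exp (-(2 * (Real.log (Real.log Zn) + C) + 12)) ≤
        1 / 2 * Real.exp (-(∑ q ∈ PR, (2 / (q : ℝ) + 12 / ((q : ℝ) * ((q : ℝ) - 1))))) := by
          apply mul_le_mul_of_nonneg_left _ (by norm_num)
          apply Real.exp_le_exp.2
          have h4 := (abs_le.1 h1).2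
          have h5 : ∑ q ∈ PR, (2 / (q : ℝ) + 12 / ((q : ℝ) * ((q : ℝ) - 1))) ≤
              2 * ∑ q ∈ PR, 1 / (q : ℝ) + 12 := by
            rw [sum_add_distrib, mul_sum]
            apply add_le_add
            · apply le_of_eq
              apply sum_congr rfl
              intro q _
              ring
            · have h3 : ∀ n : ℕ, ∑ p ∈ Icc 2 (n + 1), 12 / ((p : ℝ) * ((p : ℝ) - 1)) =
                  12 - 12 / ((n : ℝ) + 1) := by
                intro n
                induction n with
                | zero => simp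
                | succ n ih =>
                  rw [sum_Icc_succ_top (by omega), ih]
                  push_cast
                  have e1 : (n : ℝ) + 1 ≠ 0 := by positivity
                  have e2 : (n : ℝ) + 1 + 1 ≠ 0 := by positivity
                  field_simp
                  ring
              have h6 := h3 (Zn - 1)
              rw [Nat.sub_add_cancel (by omega)] at h6
              calc ∑ q ∈ PR, 12 / ((q : ℝ) * ((q : ℝ) - 1)) ≤
                  ∑ p ∈ Icc 2 Zn, 12 / ((p : ℝ) * ((p : ℝ) - 1)) := by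
                    apply sum_le_sum_of_subset_of_nonneg
                    · intro p hp
                      rw [hPR, mem_filter, mem_Icc] at hp
                      rw [mem_Icc]
                      exact ⟨hp.2.two_le, hp.1.2⟩
                    · intro p hp _
                      rw [mem_Icc] at hp
                      have : (2 : ℝ) ≤ p := by exact_mod_cast hp.1
                      apply div_nonneg (by norm_num)
                      nlinarith
                _ ≤ 12 := by
                    rw [h6]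
                    have : 0 ≤ 12 / (((Zn - 1 : ℕ) : ℝ) + 1) := by positivity
                    linarith
          linarith
      _ ≤ (∏ q ∈ PR, (if q = 3 then (1 / 2 : ℝ) else 1)) *
          ∏ q ∈ PR, Real.exp (-(2 / (q : ℝ) + 12 / ((q : ℝ) * ((q : ℝ) - 1)))) := by
          rw [← sum_neg_distrib, Real.exp_sum]
          apply mul_le_mul_of_nonneg_right
          · rw [prod_ite_eq' PR 3 (fun _ => (1 / 2 : ℝ))]
            split_ifs <;> norm_num
          · exact prod_nonneg fun _ _ => (Real.exp_pos _).le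
      _ = ∏ q ∈ PR, ((if q = 3 then (1 / 2 : ℝ) else 1) *
          Real.exp (-(2 / (q : ℝ) + 12 / ((q : ℝ) * ((q : ℝ) - 1))))) := by
          rw [prod_mul_distrib]
      _ ≤ _ := by
          apply Finset.prod_le_prod
          · intro q _
            apply mul_nonneg _ (Real.exp_pos _).le
            split_ifs <;> norm_num
          · exact hfac
  rw [locP_sing] at hlow
  have h2 : 1 / 2 * Real.exp (-(2 * (Real.log (Real.log Zn) + C) + 12)) =
      1 / 2 * Real.exp (-(2 * C + 12)) / Real.log Zn ^ 2 := by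
    rw [show -(2 * (Real.log (Real.log Zn) + C) + 12) = -(2 * C + 12) -
      (Real.log (Real.log Zn) + Real.log (Real.log Zn)) by ring, Real.exp_sub, Real.exp_add,
      Real.exp_log hlZ]
    ring
  rw [h2] at hlow
  have hs := sing_nonneg (fq b c) n z
  have h3 : sing (fq b c) n z * ∏ q ∈ PR, (1 - 1 / (q : ℝ)) ≤
      sing (fq b c) n z * (c1 / Real.log Zn) := mul_le_mul_of_nonneg_left hup1 hs
  have h4 := hlow.trans h3
  have hcc : 0 < 1 / 2 * Real.exp (-(2 * C + 12)) := by positivity
  calc 1 / 2 * Real.exp (-(2 * C + 12)) / c1 / Real.log z ≤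
      1 / 2 * Real.exp (-(2 * C + 12)) / c1 / Real.log Zn :=
        div_le_div_of_nonneg_left (by positivity) hlZ hlz
    _ = 1 / 2 * Real.exp (-(2 * C + 12)) / Real.log Zn ^ 2 * (Real.log Zn / c1) := by
        field_simp
    _ ≤ sing (fq b c) n z * (c1 / Real.log Zn) * (Real.log Zn / c1) :=
        mul_le_mul_of_nonneg_right h4 (by positivity)
    _ = sing (fq b c) n z := by field_simp

end Pool.Agent.Y882.GP
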