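import Pool.Agent.Y882.GP.Thm
import Pool.Agent.Y882.Cum

/-! `N - G(p)` is almost prime for all but few `N`. -/

set_option autoImplicit false

open Finset Polynomial Filter Topology

namespace Pool.Agent.Y882.GP

open Pool.Agent.Y882
open Pool.Agent.Y882.PX (ro KF)

open Classical in
/-- the number of the residues `n` mod `q` with `n (N - G(n)) ≡ 0` -/
noncomputable def om (G : ℤ[X]) (N q : ℕ) : ℕ :=
  ((range q).filter (fun n : ℕ => (q : ℤ) ∣ (n : ℤ) * ((N : ℤ) - G.eval (n : ℤ)))).card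

/-- the partial product of the singular series -/
noncomputable def sing (G : ℤ[X]) (N : ℕ) (z : ℝ) : ℝ :=
  ∏ q ∈ (Icc 1 ⌊z⌋₊).filter Nat.Prime, (1 - (om G N q : ℝ) / q) / (1 - 1 / (q : ℝ)) ^ 2

open Classical in
/-- the primes `p ≤ z` for which `N - G(p) ≥ 2` has at most `r` prime factors, none of which is
smaller than `N ^ (1 / (r + 1))` -/
noncomputable def good (G : ℤ[X]) (r N : ℕ) (z : ℝ) : Finset ℕ :=
  (Icc 1 ⌊z⌋₊).filter (fun p : ℕ => p.Prime ∧ 2 ≤ (N : ℤ) - G.eval (p : ℤ) ∧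
    ((N : ℤ) - G.eval (p : ℤ)).natAbs.primeFactorsList.length ≤ r ∧
    ∀ q : ℕ, q.Prime → (q : ℤ) ∣ (N : ℤ) - G.eval (p : ℤ) → (N : ℝ) ^ (1 / ((r : ℝ) + 1)) ≤ q)

theorem mert_low : ∃ c : ℝ, 0 < c ∧ ∀ z : ℕ, 3 ≤ z →
    c / Real.log z ≤ ∏ p ∈ (Icc 1 z).filter Nat.Prime, (1 - 1 / (p : ℝ)) := by
  obtain ⟨C, hC⟩ := Pool.Agent.Erdos456.Mert.mertens_inv
  refine ⟨Real.exp (-(C + 1)), Real.exp_pos _, fun z hz => ?_⟩
  have h1 := hC z hz
  have hz3 : (3 : ℝ) ≤ z := by exact_mod_cast hz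
  have hlz : 0 < Real.log z := Real.log_pos (by linarith)
  have h2 : ∑ p ∈ (Icc 1 z).filter Nat.Prime, 1 / ((p : ℝ) - 1) ≤
      ∑ p ∈ (Icc 1 z).filter Nat.Prime, 1 / (p : ℝ) + 1 := by
    have h3 : ∀ n : ℕ, ∑ p ∈ Icc 2 (n + 1), 1 / ((p : ℝ) * ((p : ℝ) - 1)) = 1 - 1 / ((n : ℝ) + 1) := by
      intro n
      induction n with
      | zero => simp
      | succ n ih =>
        rw [sum_Icc_succ_top (by omega), ih]
        push_cast
        have e1 : (n : ℝ) + 1 ≠ 0 := by positivity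
        have e2 : (n : ℝ) + 1 + 1 ≠ 0 := by positivity
        field_simp
        ring
    have h4 : ∑ p ∈ (Icc 1 z).filter Nat.Prime, 1 / ((p : ℝ) * ((p : ℝ) - 1)) ≤ 1 := by
      have h5 := h3 (z - 1)
      rw [Nat.sub_add_cancel (by omega)] at h5
      calc ∑ p ∈ (Icc 1 z).filter Nat.Prime, 1 / ((p : ℝ) * ((p : ℝ) - 1)) ≤
          ∑ p ∈ Icc 2 z, 1 / ((p : ℝ) * ((p : ℝ) - 1)) := by
            apply sum_le_sum_of_subset_of_nonneg
            · intro p hp
              rw [mem_filter, mem_Icc] at hp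
              rw [mem_Icc]
              exact ⟨hp.2.two_le, hp.1.2⟩
            · intro p hp _
              rw [mem_Icc] at hp
              have : (2 : ℝ) ≤ p := by exact_mod_cast hp.1
              apply div_nonneg zero_le_one
              nlinarith
        _ ≤ 1 := by
            rw [h5]
            have : 0 ≤ 1 / (((z - 1 : ℕ) : ℝ) + 1) := by positivity
            linarith
    calc ∑ p ∈ (Icc 1 z).filter Nat.Prime, 1 / ((p : ℝ) - 1) =
        ∑ p ∈ (Icc 1 z).filter Nat.Prime, (1 / (p : ℝ) + 1 / ((p : ℝ) * ((p : ℝ) - 1))) := by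
          apply sum_congr rfl
          intro p hp
          have : (2 : ℝ) ≤ p := by exact_mod_cast (mem_filter.1 hp).2.two_le
          have e1 : (p : ℝ) ≠ 0 := by linarith
          have e2 : (p : ℝ) - 1 ≠ 0 := by linarith
          field_simp
          ring
      _ ≤ _ := by
          rw [sum_add_distrib]
          linarith
  have h3 : ∀ p ∈ (Icc 1 z).filter Nat.Prime, Real.exp (-(1 / ((p : ℝ) - 1))) ≤ 1 - 1 / (p : ℝ) := by
    intro p hp
    have hp2 : (2 : ℝ) ≤ p := by exact_mod_cast (mem_filter.1 hp).2.two_le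
    have h4 : (p : ℝ) / (p - 1) ≤ Real.exp (1 / ((p : ℝ) - 1)) := by
      have h5 := Real.add_one_le_exp (1 / ((p : ℝ) - 1))
      have h6 : (p : ℝ) / (p - 1) = 1 / ((p : ℝ) - 1) + 1 := by
        have e2 : (p : ℝ) - 1 ≠ 0 := by linarith
        field_simp
        ring
      rw [h6]
      exact h5
    rw [Real.exp_neg]
    have h5 : (1 : ℝ) - 1 / p = ((p : ℝ) / (p - 1))⁻¹ := by
      have e1 : (p : ℝ) ≠ 0 := by linarith
      rw [inv_div]
      field_simp
    rw [h5]
    exact inv_anti₀ (div_pos (by linarith) (by linarith)) h4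
  calc Real.exp (-(C + 1)) / Real.log z = Real.exp (-(Real.log (Real.log z) + C + 1)) := by
        rw [show -(Real.log (Real.log z) + C + 1) = -(C + 1) - Real.log (Real.log z) by ring,
          Real.exp_sub, Real.exp_log hlz]
    _ ≤ Real.exp (-(∑ p ∈ (Icc 1 z).filter Nat.Prime, 1 / ((p : ℝ) - 1))) := by
        apply Real.exp_le_exp.2
        have h4 := (abs_le.1 h1).2
        linarith
    _ = ∏ p ∈ (Icc 1 z).filter Nat.Prime, Real.exp (-(1 / ((p : ℝ) - 1))) := by
        rw [← Real.exp_sum, sum_neg_distrib]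
    _ ≤ _ := prod_le_prod (fun p _ => (Real.exp_pos _).le) h3

theorem om_eq (G : ℤ[X]) (N q : ℕ) (hq : q.Prime) : om G N q = rs G (-(N : ℤ)) q + 1 := by
  classical
  unfold om rs Rt
  have h1 : (range q).filter (fun n : ℕ => (q : ℤ) ∣ (n : ℤ) * ((N : ℤ) - G.eval (n : ℤ))) =
      insert 0 ((range q).filter (fun a : ℕ => (q : ℤ) ∣ G.eval (a : ℤ) + -(N : ℤ) ∧
        a.Coprime q)) := by
    ext a
    rw [mem_filter, mem_insert, mem_filter, mem_range]
    have hneg : ((q : ℤ) ∣ G.eval (a : ℤ) + -(N : ℤ)) ↔ ((q : ℤ) ∣ (N : ℤ) - G.eval (a : ℤ)) := by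
      rw [← dvd_neg]
      have : -(G.eval (a : ℤ) + -(N : ℤ)) = (N : ℤ) - G.eval (a : ℤ) := by ring
      rw [this]
    constructor
    · rintro ⟨h2, h3⟩
      by_cases ha : a = 0
      · left; exact ha
      · right
        have hc : a.Coprime q := (Nat.coprime_of_lt_prime ha h2 hq).symm
        refine ⟨h2, ?_, hc⟩
        rw [hneg]
        rcases (Nat.prime_iff_prime_int.1 hq).dvd_or_dvd h3 with h4 | h4
        · exfalso
          have h5 := Int.natCast_dvd_natCast.1 h4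
          exact ha (Nat.eq_zero_of_dvd_of_lt h5 h2)
        · exact h4
    · rintro (ha | ⟨h2, h3, h4⟩)
      · subst ha
        refine ⟨hq.pos, ?_⟩
        simp
      · exact ⟨h2, Dvd.dvd.mul_left (hneg.1 h3) _⟩
  rw [h1, card_insert_of_notMem]
  rw [mem_filter]
  rintro ⟨_, _, h⟩
  rw [Nat.coprime_zero_left] at h
  exact hq.one_lt.ne' h

theorem locP_sing (G : ℤ[X]) (N : ℕ) (z : ℝ) :
    locP G (-(N : ℤ)) z = sing G N z * ∏ q ∈ (Icc 1 ⌊z⌋₊).filter Nat.Prime, (1 - 1 / (q : ℝ)) := by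
  unfold locP sing
  rw [← prod_mul_distrib]
  apply prod_congr rfl
  intro q hq
  have hq2 : (2 : ℝ) ≤ q := by exact_mod_cast (mem_filter.1 hq).2.two_le
  rw [om_eq G N q (mem_filter.1 hq).2]
  have e1 : (q : ℝ) ≠ 0 := by linarith
  have e2 : (q : ℝ) - 1 ≠ 0 := by linarith
  push_cast
  have e3 : (1 : ℝ) - 1 / q ≠ 0 := by
    rw [one_sub_div e1]
    exact div_ne_zero e2 e1
  field_simp
  ring

theorem sing_nonneg (G : ℤ[X]) (N : ℕ) (z : ℝ) : 0 ≤ sing G N z := by
  unfold sing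
  apply prod_nonneg
  intro q hq
  have hqp := (mem_filter.1 hq).2
  have hq2 : (2 : ℝ) ≤ q := by exact_mod_cast hqp.two_le
  rw [om_eq G N q hqp]
  apply div_nonneg _ (by positivity)
  have h1 := rs_le_pred G (-(N : ℤ)) q hqp
  have h2 : rs G (-(N : ℤ)) q + 1 ≤ q := by
    have := hqp.one_le
    omega
  have h3 : ((rs G (-(N : ℤ)) q + 1 : ℕ) : ℝ) ≤ q := by exact_mod_cast h2
  rw [sub_nonneg, div_le_one (by linarith)]
  exact h3

theorem locP_anti (F : ℤ[X]) (k : ℤ) (x z : ℝ) (hxz : x ≤ z) : locP F k z ≤ locP F k x := by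
  unfold locP
  have hsub : (Icc 1 ⌊x⌋₊).filter Nat.Prime ⊆ (Icc 1 ⌊z⌋₊).filter Nat.Prime :=
    filter_subset_filter _ (Icc_subset_Icc_right (Nat.floor_le_floor hxz))
  have hr01 : ∀ p ∈ (Icc 1 ⌊z⌋₊).filter Nat.Prime,
        0 ≤ 1 - (rs F k p : ℝ) / ((p : ℝ) - 1) ∧ 1 - (rs F k p : ℝ) / ((p : ℝ) - 1) ≤ 1 := by
    intro p hp
    obtain ⟨h1, h2⟩ := rs_ratio F k p (mem_filter.1 hp).2
    constructor <;> linarith
  rw [← prod_sdiff hsub]
  calc _ ≤ 1 * ∏ p ∈ (Icc 1 ⌊x⌋₊).filter Nat.Prime, (1 - (rs F k p : ℝ) / ((p : ℝ) - 1)) := by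
        apply mul_le_mul_of_nonneg_right
        · apply prod_le_one
          · intro p hp
            exact (hr01 p (mem_sdiff.1 hp).1).1
          · intro p hp
            exact (hr01 p (mem_sdiff.1 hp).1).2
        · exact prod_nonneg fun p hp => (hr01 p (hsub hp)).1
    _ = _ := one_mul _

theorem omega_bound (m : ℕ) (w : ℝ) (hw : 1 ≤ w) (r : ℕ) (hm : m ≠ 0)
    (h : ∀ q : ℕ, q.Prime → q ∣ m → w ≤ q) (hlt : (m : ℝ) < w ^ (r + 1)) :
    m.primeFactorsList.length ≤ r := by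
  by_contra hcon
  push Not at hcon
  have key : ∀ l : List ℕ, (∀ q ∈ l, w ≤ q) → w ^ l.length ≤ ((l.prod : ℕ) : ℝ) := by
    intro l
    induction l with
    | nil => intro _; simp
    | cons a l ih =>
      intro hl
      rw [List.length_cons, List.prod_cons, pow_succ, mul_comm, Nat.cast_mul]
      exact mul_le_mul (hl a (by simp)) (ih (fun q hq => hl q (by simp [hq]))) (by positivity)
        (Nat.cast_nonneg _)
  have h1 := key m.primeFactorsList (fun q hq => h q (Nat.prime_of_mem_primeFactorsList hq)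
    (Nat.dvd_of_mem_primeFactorsList hq))
  rw [Nat.prod_primeFactorsList hm] at h1
  have h2 : w ^ (r + 1) ≤ w ^ m.primeFactorsList.length := pow_le_pow_right₀ hw hcon
  linarith

theorem eval_le (G : ℤ[X]) : ∃ C : ℕ, ∀ b : ℕ, 1 ≤ b →
    (G.eval (b : ℤ)) ≤ (C : ℤ) * (b : ℤ) ^ G.natDegree := by
  refine ⟨∑ i ∈ range (G.natDegree + 1), (G.coeff i).natAbs, fun b hb => ?_⟩
  rw [eval_eq_sum_range]
  push_cast
  rw [sum_mul]
  apply sum_le_sum
  intro i hi
  rw [mem_range] at hi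
  have hb1 : (1 : ℤ) ≤ b := by exact_mod_cast hb
  have h1 : (b : ℤ) ^ i ≤ (b : ℤ) ^ G.natDegree := pow_le_pow_right₀ hb1 (by omega)
  calc G.coeff i * (b : ℤ) ^ i ≤ |G.coeff i| * (b : ℤ) ^ i :=
        mul_le_mul_of_nonneg_right (le_abs_self _) (by positivity)
    _ ≤ |G.coeff i| * (b : ℤ) ^ G.natDegree := mul_le_mul_of_nonneg_left h1 (abs_nonneg _)

theorem eval_pos (G : ℤ[X]) (hG : 1 ≤ G.natDegree) (hlc : 0 < G.leadingCoeff) :
    ∃ P0 : ℕ, ∀ b : ℕ, P0 ≤ b → 0 ≤ G.eval (b : ℤ) := by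
  have hinj : Function.Injective (Int.castRingHom ℝ) := by
    intro a b h
    simpa using h
  have h1 : Tendsto (fun x : ℝ => (G.map (Int.castRingHom ℝ)).eval x) atTop atTop := by
    apply Polynomial.tendsto_atTop_of_leadingCoeff_nonneg
    · rw [degree_map_eq_of_injective hinj]
      exact natDegree_pos_iff_degree_pos.1 (by omega)
    · rw [leadingCoeff_map_of_injective hinj]
      simp only [eq_intCast]
      exact_mod_cast hlc.le
  have h2 := (h1.comp tendsto_natCast_atTop_atTop).eventually_ge_atTop (0 : ℝ)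
  obtain ⟨P0, hP0⟩ := eventually_atTop.1 h2
  refine ⟨P0, fun b hb => ?_⟩
  have h3 := hP0 b hb
  simp only [Function.comp] at h3
  have h4 : (G.map (Int.castRingHom ℝ)).eval (b : ℝ) = ((G.eval (b : ℤ) : ℤ) : ℝ) := by
    have := eval_intCast_map (Int.castRingHom ℝ) G (b : ℤ)
    simpa using this
  rw [h4] at h3
  exact_mod_cast h3

open Classical in
/-- **`N - G(p)` has at most `r` prime factors for all but few `N`.** -/
theorem schz (G : ℤ[X]) (hG : 1 ≤ G.natDegree) (hlc : 0 < G.leadingCoeff) (r : ℕ) (θ ε : ℝ)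
    (hθ0 : 0 < θ) (hθ1 : θ * G.natDegree ≤ 1) (hr : 4 < (1 + θ) * (r + 1)) (hε : 0 < ε) :
    ∃ δ C : ℝ, 0 < δ ∧ 0 < C ∧ ∀ X : ℕ, 1 ≤ X →
      (((Icc 1 X).filter (fun N : ℕ => ((good G r N ((N : ℝ) ^ θ)).card : ℝ) <
        δ * sing G N ((N : ℝ) ^ θ) * ((N : ℝ) ^ θ / Real.log N ^ 2))).card : ℝ) ≤
      C * (X : ℝ) ^ (max (max (2 / 3) (1 - θ)) (4 / ((r : ℝ) + 1) - θ) + ε) := by
  have hGr : (1 : ℝ) ≤ G.natDegree := by exact_mod_cast hG
  have hθle : θ ≤ 1 := by nlinarith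
  have hr1 : (0 : ℝ) < (r : ℝ) + 1 := by positivity
  set u0 : ℝ := 1 / ((r : ℝ) + 1) with hu0
  have hu00 : 0 < u0 := by positivity
  have h4u : 4 * u0 < 1 + θ := by
    rw [hu0, mul_one_div, div_lt_iff₀ hr1]
    exact hr
  obtain ⟨s, hs0, hs1, hs2, hs3⟩ : ∃ s : ℝ, 0 < s ∧ s ≤ ε / 32 ∧ s ≤ (1 + θ - 4 * u0) / 8 ∧
      s ≤ θ / 2 := by
    refine ⟨min (min (ε / 32) ((1 + θ - 4 * u0) / 8)) (θ / 2), lt_min (lt_min (by linarith)
      (by linarith)) (by linarith), (min_le_left _ _).trans (min_le_left _ _),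
      (min_le_left _ _).trans (min_le_right _ _), min_le_right _ _⟩
  set u : ℝ := u0 + s with hu
  set θ' : ℝ := θ - s with hθ'
  have hur : 1 < u * ((r : ℝ) + 1) := by
    have : u0 * ((r : ℝ) + 1) = 1 := by rw [hu0]; field_simp
    rw [hu, add_mul, this]
    have : 0 < s * ((r : ℝ) + 1) := by positivity
    linarith
  obtain ⟨δ', hδ', Y0, H⟩ := main0 G hG θ' u (ε / 4) (by linarith) (by linarith) (by linarith)
    (by linarith) (by linarith)
  obtain ⟨CG, hCG⟩ := eval_le G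
  obtain ⟨P0, hP0⟩ := eval_pos G hG hlc
  obtain ⟨c, hc, hML⟩ := mert_low
  set lam : ℝ := 1 / (4 * ((CG : ℝ) + 1)) with hlam
  have hlam0 : 0 < lam := by positivity
  have hlam4 : lam ≤ 1 / 4 := by
    rw [hlam]
    apply one_div_le_one_div_of_le (by norm_num)
    have : (0 : ℝ) ≤ CG := Nat.cast_nonneg _
    linarith
  have hlamC : (CG : ℝ) * lam ≤ 1 / 4 := by
    rw [hlam, mul_one_div, div_le_iff₀ (by positivity)]
    linarith
  set δ : ℝ := δ' * lam * c / 4 with hδdef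
  have hδ : 0 < δ := by positivity
  set E : ℝ := max (max (2 / 3) (1 - θ)) (4 / ((r : ℝ) + 1) - θ) with hE
  have hE0 : 2 / 3 ≤ E := (le_max_left _ _).trans (le_max_left _ _)
  have hE1 : 1 - θ ≤ E := (le_max_right _ _).trans (le_max_left _ _)
  have hE2 : 4 * u0 - θ ≤ E := by
    have : 4 * u0 - θ = 4 / ((r : ℝ) + 1) - θ := by rw [hu0]; ring
    rw [this]
    exact le_max_right _ _
  have hE' : max (max (2 / 3) (1 - θ')) (4 * u - θ') + ε / 4 ≤ E + ε / 2 := by
    have h1 : max (max (2 / 3) (1 - θ')) (4 * u - θ') ≤ E + ε / 4 := by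
      apply max_le
      · apply max_le
        · linarith
        · rw [hθ']; linarith
      · rw [hu, hθ']; linarith
    linarith
  have ev1 : ∀ᶠ Y : ℕ in atTop, max (2 * P0 / lam) (1 / lam) ≤ (Y : ℝ) ^ (min s θ) :=
    tendsto_natCast_atTop_atTop.eventually
      ((tendsto_rpow_atTop (lt_min hs0 hθ0)).eventually_ge_atTop _)
  have ev2 : ∀ᶠ Y : ℕ in atTop, (3 : ℝ) ≤ (Y : ℝ) ^ θ :=
    tendsto_natCast_atTop_atTop.eventually ((tendsto_rpow_atTop hθ0).eventually_ge_atTop _)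
  have ev3 : ∀ᶠ Y : ℕ in atTop, (2 : ℝ) ^ (E + ε / 2) ≤ (Y : ℝ) ^ (ε / 2) :=
    tendsto_natCast_atTop_atTop.eventually
      ((tendsto_rpow_atTop (by linarith)).eventually_ge_atTop _)
  obtain ⟨Y1, hY1⟩ := eventually_atTop.1 (ev1.and (ev2.and (ev3.and (eventually_ge_atTop 3))))
  obtain ⟨C, hC, hcum⟩ := cum (fun N : ℕ => ((good G r N ((N : ℝ) ^ θ)).card : ℝ) <
        δ * sing G N ((N : ℝ) ^ θ) * ((N : ℝ) ^ θ / Real.log N ^ 2)) (E + ε) (by linarith)
    (max Y0 Y1) (by
    intro Y hY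
    obtain ⟨f1, f2, f3, f4⟩ := hY1 Y ((le_max_right _ _).trans hY)
    have hYr : (3 : ℝ) ≤ Y := by exact_mod_cast f4
    have hY0 : (0 : ℝ) < Y := by linarith
    set Z : ℕ := 2 * Y with hZ
    have hZr : (Z : ℝ) = 2 * Y := by rw [hZ]; push_cast; ring
    have hZ0 : (0 : ℝ) < Z := by linarith
    have hZ1 : (1 : ℝ) ≤ Z := by linarith
    have hYZ : (Y : ℝ) ≤ Z := by linarith
    set x : ℝ := lam * (Z : ℝ) ^ θ with hx
    have hlZ : 0 < Real.log Z := Real.log_pos (by linarith)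
    have hZs : 1 / lam ≤ (Z : ℝ) ^ s := by
      calc 1 / lam ≤ (Y : ℝ) ^ (min s θ) := (le_max_right _ _).trans f1
        _ ≤ (Y : ℝ) ^ s := Real.rpow_le_rpow_of_exponent_le (by linarith) (min_le_left _ _)
        _ ≤ (Z : ℝ) ^ s := Real.rpow_le_rpow hY0.le hYZ hs0.le
    have hxl : (Z : ℝ) ^ θ' ≤ x := by
      rw [hx, hθ', Real.rpow_sub hZ0, div_le_iff₀ (by positivity)]
      calc (Z : ℝ) ^ θ = lam * (Z : ℝ) ^ θ * (1 / lam) := by field_simp
        _ ≤ lam * (Z : ℝ) ^ θ * (Z : ℝ) ^ s := mul_le_mul_of_nonneg_left hZs (by positivity)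
    have hZθZ : (Z : ℝ) ^ θ ≤ Z := by
      calc (Z : ℝ) ^ θ ≤ (Z : ℝ) ^ (1 : ℝ) := Real.rpow_le_rpow_of_exponent_le hZ1 hθle
        _ = Z := Real.rpow_one _
    have hxu : x ≤ Z := by
      calc x ≤ 1 * (Z : ℝ) ^ θ := mul_le_mul_of_nonneg_right (by linarith) (by positivity)
        _ ≤ Z := by rw [one_mul]; exact hZθZ
    have hH := H Z (by
      have := (le_max_left Y0 Y1).trans hY
      omega) x hxl hxu
    -- pointwise
    have hpt : ∀ N ∈ Ioc Y (2 * Y), ((good G r N ((N : ℝ) ^ θ)).card : ℝ) <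
        δ * sing G N ((N : ℝ) ^ θ) * ((N : ℝ) ^ θ / Real.log N ^ 2) →
        ((gp G (-(N : ℤ)) x ((Z : ℝ) ^ u)).card : ℝ) <
          δ' * x / Real.log Z * locP G (-(N : ℤ)) x := by
      intro N hN hlt
      rw [mem_Ioc] at hN
      have hNr1 : (Y : ℝ) < N := by exact_mod_cast hN.1
      have hNr2 : (N : ℝ) ≤ Z := by
        rw [hZr]
        exact_mod_cast hN.2
      have hN0 : (0 : ℝ) < N := by linarith
      have hNZ : (Z : ℝ) < 2 * N := by linarith
      have hxN : x ≤ (N : ℝ) ^ θ := by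
        have h1 : (Z : ℝ) ^ θ ≤ 2 * (N : ℝ) ^ θ := by
          calc (Z : ℝ) ^ θ ≤ (2 * (N : ℝ)) ^ θ := Real.rpow_le_rpow hZ0.le hNZ.le hθ0.le
            _ = (2 : ℝ) ^ θ * (N : ℝ) ^ θ := Real.mul_rpow (by norm_num) hN0.le
            _ ≤ 2 * (N : ℝ) ^ θ := by
                apply mul_le_mul_of_nonneg_right _ (by positivity)
                calc (2 : ℝ) ^ θ ≤ 2 ^ (1 : ℝ) :=
                      Real.rpow_le_rpow_of_exponent_le (by norm_num) hθle
                  _ = 2 := Real.rpow_one _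
        have h2 : (0 : ℝ) < (N : ℝ) ^ θ := by positivity
        calc x ≤ 1 / 4 * (Z : ℝ) ^ θ := mul_le_mul_of_nonneg_right hlam4 (by positivity)
          _ ≤ (N : ℝ) ^ θ := by linarith
      -- inclusion
      have hsub : gp G (-(N : ℤ)) x ((Z : ℝ) ^ u) ⊆ good G r N ((N : ℝ) ^ θ) := by
        intro p hp
        unfold gp at hp
        rw [mem_filter, mem_Icc] at hp
        obtain ⟨⟨hp1, hp2⟩, hpp, hpx1, hpx2, hpg, hpq⟩ := hp
        have hp0 : (0 : ℝ) < p := by exact_mod_cast hp1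
        have hGp : ((G.eval (p : ℤ) : ℤ) : ℝ) ≤ Z / 4 := by
          have h1 : ((G.eval (p : ℤ) : ℤ) : ℝ) ≤ (CG : ℝ) * (p : ℝ) ^ G.natDegree := by
            exact_mod_cast hCG p hp1
          refine h1.trans ?_
          have h2 : (p : ℝ) ^ G.natDegree ≤ lam * Z := by
            calc (p : ℝ) ^ G.natDegree ≤ x ^ G.natDegree :=
                  pow_le_pow_left₀ hp0.le hpx2.le _
              _ = lam ^ G.natDegree * ((Z : ℝ) ^ θ) ^ G.natDegree := by rw [hx, mul_pow]
              _ ≤ lam * Z := by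
                  apply mul_le_mul _ _ (by positivity) hlam0.le
                  · calc lam ^ G.natDegree ≤ lam ^ 1 :=
                          pow_le_pow_of_le_one hlam0.le (by linarith) hG
                      _ = lam := pow_one _
                  · rw [← Real.rpow_natCast, ← Real.rpow_mul hZ0.le]
                    calc (Z : ℝ) ^ (θ * G.natDegree) ≤ (Z : ℝ) ^ (1 : ℝ) :=
                          Real.rpow_le_rpow_of_exponent_le hZ1 hθ1
                      _ = Z := Real.rpow_one _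
          calc (CG : ℝ) * (p : ℝ) ^ G.natDegree ≤ CG * (lam * Z) :=
                mul_le_mul_of_nonneg_left h2 (Nat.cast_nonneg _)
            _ = (CG * lam) * Z := by ring
            _ ≤ 1 / 4 * Z := mul_le_mul_of_nonneg_right hlamC hZ0.le
            _ = Z / 4 := by ring
        have hGN : ((G.eval (p : ℤ) : ℤ) : ℝ) < N := by linarith
        have hGNi : G.eval (p : ℤ) < (N : ℤ) := by exact_mod_cast hGN
        have hG0 : 0 ≤ G.eval (p : ℤ) := by
          apply hP0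
          have h1 : (P0 : ℝ) ≤ p := by
            have h2 : 2 * P0 / lam ≤ (Z : ℝ) ^ θ := by
              calc 2 * P0 / lam ≤ (Y : ℝ) ^ (min s θ) := (le_max_left _ _).trans f1
                _ ≤ (Y : ℝ) ^ θ :=
                    Real.rpow_le_rpow_of_exponent_le (by linarith) (min_le_right _ _)
                _ ≤ (Z : ℝ) ^ θ := Real.rpow_le_rpow hY0.le hYZ hθ0.le
            rw [div_le_iff₀ hlam0] at h2
            have h3 : x = (Z : ℝ) ^ θ * lam := by rw [hx]; ring
            linarith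
          exact_mod_cast h1
        have habs : |G.eval (p : ℤ) + -(N : ℤ)| = (N : ℤ) - G.eval (p : ℤ) := by
          rw [abs_of_neg (by linarith)]
          ring
        rw [habs] at hpg
        have hneg : ∀ q : ℕ, ((q : ℤ) ∣ G.eval (p : ℤ) + -(N : ℤ)) ↔
            ((q : ℤ) ∣ (N : ℤ) - G.eval (p : ℤ)) := by
          intro q
          rw [← dvd_neg]
          have : -(G.eval (p : ℤ) + -(N : ℤ)) = (N : ℤ) - G.eval (p : ℤ) := by ring
          rw [this]
        have hrough : ∀ q : ℕ, q.Prime → (q : ℤ) ∣ (N : ℤ) - G.eval (p : ℤ) →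
            (Z : ℝ) ^ u ≤ q := fun q hq hd => hpq q hq ((hneg q).2 hd)
        have hZu1 : 1 ≤ (Z : ℝ) ^ u := Real.one_le_rpow hZ1 (by linarith)
        unfold good
        rw [mem_filter, mem_Icc]
        refine ⟨⟨hp1, ?_⟩, hpp, by linarith, ?_, ?_⟩
        · exact Nat.le_floor (hpx2.le.trans hxN)
        · apply omega_bound _ ((Z : ℝ) ^ u) hZu1 r
          · apply Int.natAbs_ne_zero.2
            linarith
          · intro q hq hd
            exact hrough q hq (Int.natCast_dvd.2 hd)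
          · have h1 : ((((N : ℤ) - G.eval (p : ℤ)).natAbs : ℕ) : ℝ) ≤ N := by
              have h2 : ((N : ℤ) - G.eval (p : ℤ)).natAbs ≤ N := by omega
              exact_mod_cast h2
            have h2 : (Z : ℝ) < ((Z : ℝ) ^ u) ^ (r + 1) := by
              rw [← Real.rpow_natCast, ← Real.rpow_mul hZ0.le]
              calc (Z : ℝ) = (Z : ℝ) ^ (1 : ℝ) := (Real.rpow_one _).symm
                _ < (Z : ℝ) ^ (u * ((r + 1 : ℕ) : ℝ)) := by
                    apply Real.rpow_lt_rpow_of_exponent_lt (by linarith)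
                    push_cast
                    exact hur
            linarith
        · intro q hq hd
          refine le_trans ?_ (hrough q hq hd)
          calc (N : ℝ) ^ (1 / ((r : ℝ) + 1)) ≤ (Z : ℝ) ^ (1 / ((r : ℝ) + 1)) :=
                Real.rpow_le_rpow hN0.le hNr2 (by positivity)
            _ ≤ (Z : ℝ) ^ u := Real.rpow_le_rpow_of_exponent_le hZ1 (by linarith)
      -- sizes
      have hNθ3 : (3 : ℝ) ≤ (N : ℝ) ^ θ :=
        f2.trans (Real.rpow_le_rpow hY0.le hNr1.le hθ0.le)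
      have hfl3 : 3 ≤ ⌊(N : ℝ) ^ θ⌋₊ := Nat.le_floor (by exact_mod_cast hNθ3)
      have hmert := hML _ hfl3
      have hlfl : Real.log (⌊(N : ℝ) ^ θ⌋₊ : ℝ) ≤ Real.log Z := by
        apply Real.log_le_log
        · have : 0 < ⌊(N : ℝ) ^ θ⌋₊ := by omega
          exact_mod_cast this
        · refine (Nat.floor_le (by positivity)).trans ?_
          calc (N : ℝ) ^ θ ≤ (Z : ℝ) ^ θ := Real.rpow_le_rpow hN0.le hNr2 hθ0.le
            _ ≤ Z := hZθZ
      have hlfl0 : 0 < Real.log (⌊(N : ℝ) ^ θ⌋₊ : ℝ) := by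
        apply Real.log_pos
        have : (3 : ℝ) ≤ (⌊(N : ℝ) ^ θ⌋₊ : ℝ) := by exact_mod_cast hfl3
        linarith
      have hlN0 : 0 < Real.log N := Real.log_pos (by linarith)
      have hlZN : Real.log Z ≤ 2 * Real.log N := by
        have h1 : (Z : ℝ) ≤ (N : ℝ) ^ 2 := by nlinarith
        have h2 := Real.log_le_log hZ0 h1
        rw [Real.log_pow] at h2
        push_cast at h2
        exact h2
      have hs := sing_nonneg G N ((N : ℝ) ^ θ)
      have hloc : sing G N ((N : ℝ) ^ θ) * (c / Real.log Z) ≤ locP G (-(N : ℤ)) x := by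
        refine le_trans ?_ (locP_anti G (-(N : ℤ)) x ((N : ℝ) ^ θ) hxN)
        rw [locP_sing]
        apply mul_le_mul_of_nonneg_left _ hs
        refine le_trans ?_ hmert
        exact div_le_div_of_nonneg_left hc.le hlfl0 hlfl
      have hcard : ((gp G (-(N : ℤ)) x ((Z : ℝ) ^ u)).card : ℝ) ≤
          (good G r N ((N : ℝ) ^ θ)).card := by exact_mod_cast card_le_card hsub
      refine (hcard.trans_lt hlt).trans_le ?_
      calc δ * sing G N ((N : ℝ) ^ θ) * ((N : ℝ) ^ θ / Real.log N ^ 2) ≤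
          δ * sing G N ((N : ℝ) ^ θ) * ((Z : ℝ) ^ θ / (Real.log Z / 2) ^ 2) := by
            apply mul_le_mul_of_nonneg_left _ (by positivity)
            apply div_le_div₀ (by positivity) (Real.rpow_le_rpow hN0.le hNr2 hθ0.le)
              (by positivity)
            apply pow_le_pow_left₀ (by positivity)
            linarith
        _ = δ' * x / Real.log Z * (sing G N ((N : ℝ) ^ θ) * (c / Real.log Z)) := by
            rw [hδdef, hx]
            field_simp
            ring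
        _ ≤ δ' * x / Real.log Z * locP G (-(N : ℤ)) x := by
            apply mul_le_mul_of_nonneg_left hloc
            positivity
    have hcardle : ((Ioc Y (2 * Y)).filter (fun N : ℕ =>
        ((good G r N ((N : ℝ) ^ θ)).card : ℝ) <
        δ * sing G N ((N : ℝ) ^ θ) * ((N : ℝ) ^ θ / Real.log N ^ 2))).card ≤
        ((Icc (-(Z : ℤ)) Z).filter (fun k =>
          ((gp G k x ((Z : ℝ) ^ u)).card : ℝ) < δ' * x / Real.log Z * locP G k x)).card := by
      apply card_le_card_of_injOn (fun N : ℕ => -(N : ℤ))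
      · intro N hN
        rw [mem_coe, mem_filter] at hN
        rw [mem_coe, mem_filter]
        refine ⟨?_, hpt N hN.1 hN.2⟩
        have := hN.1
        rw [mem_Ioc] at this
        show -(N : ℤ) ∈ Icc (-(Z : ℤ)) Z
        rw [mem_Icc]
        constructor <;> omega
      · intro a _ b _ hab
        simp only at hab
        have : (a : ℤ) = b := by linarith
        exact_mod_cast this
    calc (((Ioc Y (2 * Y)).filter (fun N : ℕ =>
        ((good G r N ((N : ℝ) ^ θ)).card : ℝ) <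
        δ * sing G N ((N : ℝ) ^ θ) * ((N : ℝ) ^ θ / Real.log N ^ 2))).card : ℝ) ≤ _ := by
          exact_mod_cast hcardle
      _ ≤ (Z : ℝ) ^ (max (max (2 / 3) (1 - θ')) (4 * u - θ') + ε / 4) := hH
      _ ≤ (Z : ℝ) ^ (E + ε / 2) := Real.rpow_le_rpow_of_exponent_le hZ1 hE'
      _ = (2 : ℝ) ^ (E + ε / 2) * (Y : ℝ) ^ (E + ε / 2) := by
          rw [hZr, Real.mul_rpow (by norm_num) hY0.le]
      _ ≤ (Y : ℝ) ^ (ε / 2) * (Y : ℝ) ^ (E + ε / 2) :=
          mul_le_mul_of_nonneg_right f3 (by positivity)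
      _ = (Y : ℝ) ^ (E + ε) := by
          rw [← Real.rpow_add hY0]
          congr 1
          ring)
  exact ⟨δ, C, hδ, hC, hcum⟩

end Pool.Agent.Y882.GP
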