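import Pool.Agent.Y882.GP.Few
import Pool.Agent.Y882.GP.Mer
import Pool.Agent.Y882.PX.Core2

/-! Almost prime values of polynomials at primes, for all but few constant terms. -/

set_option autoImplicit false

open Finset Polynomial Filter Topology

namespace Pool.Agent.Y882.GP

open Pool.Agent.Y882
open Pool.Agent.W23.DC
open Pool.Agent.H410R2
open Pool.Agent.Helper112 Pool.Agent.Helper112.BLB
open Pool.Agent.H732R2.B2 (Sc)
open Pool.Agent.Y882.PX (ro KF V_low)

open Classical in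
/-- the primes `p` in `(x / 2, x)` for which `F(p) + k` has no prime factor below `w` -/
noncomputable def gp (F : ℤ[X]) (k : ℤ) (x w : ℝ) : Finset ℕ :=
  (Icc 1 ⌊x⌋₊).filter (fun p : ℕ => p.Prime ∧ x / 2 < p ∧ (p : ℝ) < x ∧
    1 < |F.eval (p : ℤ) + k| ∧ ∀ q : ℕ, q.Prime → (q : ℤ) ∣ F.eval (p : ℤ) + k → w ≤ q)

/-- the product of the local densities -/
noncomputable def locP (F : ℤ[X]) (k : ℤ) (x : ℝ) : ℝ :=
  ∏ q ∈ (Icc 1 ⌊x⌋₊).filter Nat.Prime, (1 - (rs F k q : ℝ) / ((q : ℝ) - 1))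

theorem TG_le (F : ℤ[X]) (hF : 1 ≤ F.natDegree) (k : ℤ) (x w : ℝ) (Y : ℕ) (ζ : ℝ) (hx : 1 ≤ x)
    (hY : 2 ≤ Y) (hw : w ≤ (Y : ℝ) ^ ζ) (hζ : ζ ≤ 1) :
    TG F x (PZ Y ζ) k ≤ Real.log x * ((gp F k x w).card + 3 * F.natDegree) +
      2 * √x * Real.log x := by
  classical
  have h0 : 0 ≤ Real.log x := Real.log_nonneg hx
  have hx0 : 0 < x := by linarith
  have hYr : (2 : ℝ) ≤ Y := by exact_mod_cast hY
  set Sm := (Icc 1 ⌊x⌋₊).filter (fun n : ℕ => |F.eval (n : ℤ) + k| ≤ 1) with hSm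
  have h1 : TG F x (PZ Y ζ) k ≤ ∑ m ∈ Icc 1 ⌊x⌋₊, ((if m ∈ gp F k x w then Real.log x else 0) +
      (if |F.eval (m : ℤ) + k| ≤ 1 then Real.log x else 0) +
      (if ¬ m.Prime then al x m else 0)) := by
    unfold TG
    apply sum_le_sum
    intro m hm
    have hm' := hm
    rw [mem_Icc] at hm
    have hm0 : (0 : ℝ) < m := by exact_mod_cast hm.1
    have hmx : (m : ℝ) ≤ x := (Nat.le_floor_iff hx0.le).1 hm.2
    have hal0 := al_nonneg x hx0 m hm.1
    obtain ⟨c1, c2, c3, c4, c5⟩ := tw_cases x hx0 m hm.1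
    have t1 : (0 : ℝ) ≤ (if m ∈ gp F k x w then Real.log x else 0) := by
      split_ifs
      · exact h0
      · exact le_rfl
    have t2 : (0 : ℝ) ≤ (if |F.eval (m : ℤ) + k| ≤ 1 then Real.log x else 0) := by
      split_ifs
      · exact h0
      · exact le_rfl
    have t3 : (0 : ℝ) ≤ (if ¬ m.Prime then al x m else 0) := by
      split_ifs
      · exact le_rfl
      · exact hal0
    by_cases hr : ∀ p ∈ PZ Y ζ, ¬ p ∣ (F.eval (m : ℤ) + k).natAbs
    · rw [if_pos hr, mul_one]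
      by_cases hp : m.Prime
      · have hal1 : al x m ≤ Real.log x := (al_le x hx0 m hm.1).trans
            (ArithmeticFunction.vonMangoldt_le_log.trans (Real.log_le_log hm0 hmx))
        by_cases h3 : x / 2 < m ∧ (m : ℝ) < x
        · by_cases h4 : |F.eval (m : ℤ) + k| ≤ 1
          · rw [if_pos h4]
            rw [if_pos h4] at t2
            linarith
          · have h5 : m ∈ gp F k x w := by
              unfold gp
              rw [mem_filter]
              refine ⟨hm', hp, h3.1, h3.2, not_le.1 h4, ?_⟩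
              intro q hq hqd
              by_contra hlt
              push Not at hlt
              apply hr q
              · unfold PZ
                have h2 : (q : ℝ) < (Y : ℝ) ^ ζ := hlt.trans_le hw
                rw [mem_filter, mem_Icc]
                refine ⟨⟨hq.one_le, ?_⟩, hq, (tt_lt Y q ζ hY hq.pos).2 h2⟩
                have h3 : (Y : ℝ) ^ ζ ≤ Y := by
                  calc (Y : ℝ) ^ ζ ≤ (Y : ℝ) ^ (1 : ℝ) :=
                        Real.rpow_le_rpow_of_exponent_le (by linarith) hζ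
                    _ = Y := Real.rpow_one _
                exact_mod_cast (h2.trans_le h3).le
              · exact Int.natCast_dvd.1 hqd
            rw [if_pos h5]
            rw [if_pos h5] at t1
            linarith
        · have h4 : Pool.Agent.Y882.tw x m = 0 := by
            by_contra hne
            apply h3
            constructor
            · by_contra h5
              push Not at h5
              exact hne (c3 h5)
            · by_contra h5
              push Not at h5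
              exact hne (c4 h5)
          have h5 : al x m = 0 := by unfold al; rw [h4, mul_zero]
          rw [h5]
          rw [h5] at t3
          linarith
      · rw [if_pos hp]
        linarith
    · rw [if_neg hr, mul_zero]
      linarith
  refine h1.trans ?_
  rw [sum_add_distrib, sum_add_distrib, ← sum_filter, ← sum_filter, ← sum_filter, sum_const,
    sum_const, nsmul_eq_mul, nsmul_eq_mul]
  have h2 := al_pp x hx
  have h3 : ((Icc 1 ⌊x⌋₊).filter (fun m => m ∈ gp F k x w)).card ≤ (gp F k x w).card := by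
    apply card_le_card
    intro m hm
    exact (mem_filter.1 hm).2
  have h4 : (((Icc 1 ⌊x⌋₊).filter (fun n : ℕ => |F.eval (n : ℤ) + k| ≤ 1)).card : ℝ) ≤
      3 * F.natDegree := by exact_mod_cast PX.small_vals F hF k ⌊x⌋₊
  have h5 : (((Icc 1 ⌊x⌋₊).filter (fun m => m ∈ gp F k x w)).card : ℝ) * Real.log x ≤
      (gp F k x w).card * Real.log x := mul_le_mul_of_nonneg_right (by exact_mod_cast h3) h0
  have h6 : (((Icc 1 ⌊x⌋₊).filter (fun n : ℕ => |F.eval (n : ℤ) + k| ≤ 1)).card : ℝ) *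
      Real.log x ≤ 3 * F.natDegree * Real.log x := mul_le_mul_of_nonneg_right h4 h0
  linarith

theorem rs_ratio (F : ℤ[X]) (k : ℤ) (p : ℕ) (hp : p.Prime) :
    0 ≤ (rs F k p : ℝ) / ((p : ℝ) - 1) ∧ (rs F k p : ℝ) / ((p : ℝ) - 1) ≤ 1 := by
  have hp2 : (2 : ℝ) ≤ p := by exact_mod_cast hp.two_le
  have h1 : (rs F k p : ℝ) ≤ (p : ℝ) - 1 := by
    have h2 := rs_le_pred F k p hp
    have h3 : rs F k p + 1 ≤ p := by
      have := hp.one_le
      omega
    have h4 : ((rs F k p : ℝ)) + 1 ≤ p := by exact_mod_cast h3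
    linarith
  constructor
  · apply div_nonneg (Nat.cast_nonneg _)
    linarith
  · rw [div_le_one (by linarith)]
    exact h1

open Classical in
theorem main0 (F : ℤ[X]) (hF : 1 ≤ F.natDegree) (θ u ε : ℝ) (hθ0 : 0 < θ) (hθ1 : θ ≤ 1)
    (hu : 0 < u) (hu2 : 4 * u < 1 + θ) (hε : 0 < ε) : ∃ δ : ℝ, 0 < δ ∧ ∃ Y0 : ℕ, ∀ Y : ℕ, Y0 ≤ Y →
      ∀ x : ℝ, (Y : ℝ) ^ θ ≤ x → x ≤ Y →
      (((Icc (-(Y : ℤ)) Y).filter (fun k =>
        ((gp F k x ((Y : ℝ) ^ u)).card : ℝ) < δ * x / Real.log Y * locP F k x)).card : ℝ) ≤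
      (Y : ℝ) ^ (max (max (2 / 3) (1 - θ)) (4 * u - θ) + ε) := by
  set E : ℝ := max (max (2 / 3) (1 - θ)) (4 * u - θ) with hE
  have hEa : 2 / 3 ≤ E := (le_max_left _ _).trans (le_max_left _ _)
  have hEb : 1 - θ ≤ E := (le_max_right _ _).trans (le_max_left _ _)
  have hEc : 4 * u - θ ≤ E := le_max_right _ _
  obtain ⟨s, hs0, hs1, hs2, hs3⟩ : ∃ s : ℝ, 0 < s ∧ s ≤ ε / 64 ∧ s ≤ (1 / 2 - u) / 4 ∧ s ≤ u := by
    refine ⟨min (min (ε / 64) ((1 / 2 - u) / 4)) u, lt_min (lt_min (by linarith) (by linarith)) hu,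
      (min_le_left _ _).trans (min_le_left _ _), (min_le_left _ _).trans (min_le_right _ _),
      min_le_right _ _⟩
  set ζ : ℝ := u + s with hζ
  set τ : ℝ := 2 * ζ + s with hτ
  set τ' : ℝ := τ + s with hτ'
  have hζ0 : 0 < ζ := by linarith
  have hτ'1 : τ' ≤ 1 := by rw [hτ', hτ, hζ]; linarith
  have hζ2 : ζ ≤ 1 / 2 := by rw [hζ]; linarith
  obtain ⟨ε₁, η, f, hε₁, hε₁ζ, hε₁β, hη, hf, Y1, HC⟩ :=
    core2 (KF F) τ ζ τ' θ hζ0 (by rw [hτ]; linarith) (by rw [hτ, hζ]; linarith)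
      (by linarith) (by linarith) hθ0
  set κ : ℕ := KF F with hκ
  have hκ1 : 1 ≤ κ := hF.trans (le_max_left _ _)
  obtain ⟨Y2, HM⟩ := mer_rs F hF ε₁ ζ η (ε / 4) hε₁ hζ2 hη (by positivity)
  obtain ⟨Y3, HE⟩ := few_err F hF θ ζ τ' (E + ε / 8) ε (8 * κ + 1) hθ0 hθ1 (by linarith) hτ'1
    (by linarith) (by rw [hτ', hτ, hζ]; linarith) hε
  obtain ⟨c0, hc0, HV⟩ := V_low (2 * κ)
  obtain ⟨Y4, HJ⟩ := exJ ε₁ hε₁
  obtain ⟨CS, hCS, HSc⟩ := Pool.Agent.H732R2.B2.Sc_bound κ (Nat.cast_nonneg _)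
  obtain ⟨X2, HMs⟩ := eventually_atTop.1 mass
  obtain ⟨A, hA⟩ : ∃ A : ℕ, (F.eval 0).natAbs ≤ A := ⟨_, le_rfl⟩
  -- the main term is at least `c1 x / L ^ (8 κ)`
  set c1 : ℝ := f * (c0 * (1 / 3) ^ (4 * κ)) / 20 with hc1
  have hc10 : 0 < c1 := by positivity
  have ev0 : ∀ᶠ Y : ℕ in atTop, max X2 16 ≤ (Y : ℝ) ^ θ :=
    tendsto_natCast_atTop_atTop.eventually ((tendsto_rpow_atTop hθ0).eventually_ge_atTop _)
  have ev2 : ∀ᶠ Y : ℕ in atTop, max (16 / c1) 2 ≤ Real.log Y :=
    tendsto_natCast_atTop_atTop.eventually (Real.tendsto_log_atTop.eventually_ge_atTop _)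
  have ev3 := polylog (16 / c1 * (10 * CS + 4 + 3 * F.natDegree + 2)) (10 * κ + 4) (θ / 2)
    (by linarith)
  have ev5 : ∀ᶠ Y : ℕ in atTop, (3 : ℝ) ≤ (Y : ℝ) ^ (ε / 8) :=
    tendsto_natCast_atTop_atTop.eventually
      ((tendsto_rpow_atTop (by linarith)).eventually_ge_atTop _)
  obtain ⟨Y5, HY5⟩ := eventually_atTop.1 (ev0.and (ev2.and (ev3.and (ev5.and
    (eventually_ge_atTop (A + 3))))))
  refine ⟨f / 80, by positivity, max (max Y1 Y2) (max (max Y3 Y4) Y5), ?_⟩
  intro Y hY x hYx hxY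
  have hY1 : Y1 ≤ Y := ((le_max_left _ _).trans (le_max_left _ _)).trans hY
  have hY2 : Y2 ≤ Y := ((le_max_right _ _).trans (le_max_left _ _)).trans hY
  have hY3 : Y3 ≤ Y := (((le_max_left _ _).trans (le_max_left _ _)).trans
    (le_max_right _ _)).trans hY
  have hY4 : Y4 ≤ Y := (((le_max_right _ _).trans (le_max_left _ _)).trans
    (le_max_right _ _)).trans hY
  have hY5 : Y5 ≤ Y := ((le_max_right _ _).trans (le_max_right _ _)).trans hY
  obtain ⟨f0, f2, f3, f5, f8⟩ := HY5 Y hY5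
  set L : ℝ := Real.log Y with hL
  have hY3n : 3 ≤ Y := by omega
  have hYr : (3 : ℝ) ≤ Y := by exact_mod_cast hY3n
  have hYr1 : (1 : ℝ) ≤ Y := by linarith
  have hY0 : (0 : ℝ) < Y := by linarith
  have hL2 : 2 ≤ L := (le_max_right _ _).trans f2
  have hL1 : 1 ≤ L := by linarith
  have hL0 : 0 < L := by linarith
  have hx16 : 16 ≤ x := ((le_max_right _ _).trans f0).trans hYx
  have hxX2 : X2 ≤ x := ((le_max_left _ _).trans f0).trans hYx
  have hx0 : 0 < x := by linarith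
  have hx1 : 1 ≤ x := by linarith
  have hlx : Real.log x ≤ L := Real.log_le_log hx0 hxY
  have hlx0 : 0 ≤ Real.log x := Real.log_nonneg hx1
  have hsx : √x * √x = x := Real.mul_self_sqrt hx0.le
  have hsx0 : 0 < √x := Real.sqrt_pos.2 hx0
  have hsx1 : 1 ≤ √x := by rw [Real.one_le_sqrt]; exact hx1
  have hYs : (Y : ℝ) ^ (θ / 2) ≤ √x := by
    rw [Real.sqrt_eq_rpow]
    calc (Y : ℝ) ^ (θ / 2) = ((Y : ℝ) ^ θ) ^ ((1 : ℝ) / 2) := by
          rw [← Real.rpow_mul hY0.le]; congr 1; ring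
      _ ≤ x ^ ((1 : ℝ) / 2) := Real.rpow_le_rpow (by positivity) hYx (by norm_num)
  obtain ⟨c, hcL, hcD, hcN, hcV⟩ := HC Y hY1
  obtain ⟨J, hJ1, hJ2⟩ := HJ Y hY4
  have hB1 := HM Y hY2
  have hB2 := HE Y hY3 x hYx hxY c hcL hcD
  set M := ∑ m ∈ Icc 1 ⌊x⌋₊, al x m with hMdef
  have hM : x / 20 ≤ M := HMs x hxX2
  have hPZ : ∀ w : ℝ, ∀ p ∈ PZ Y w, p.Prime ∧ p ≤ Y ∧ (p : ℝ) < (Y : ℝ) ^ w := by
    intro w p hp
    unfold PZ at hp
    rw [mem_filter, mem_Icc] at hp
    exact ⟨hp.2.1, hp.1.2, (tt_lt Y p w (by omega) hp.2.1.pos).1 hp.2.2⟩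
  -- size of J
  have hJlog : (2 : ℝ) ^ J ≤ 3 * L := by
    have h6 := Real.log_le_log (by positivity) hJ2
    rw [Real.log_rpow (by linarith), Real.log_pow] at h6
    push_cast at h6
    have h7 : 0.69 < Real.log 2 := by linarith [Real.log_two_gt_d9]
    have h8 : (2 : ℝ) ^ J * 0.69 ≤ (2 : ℝ) ^ J * Real.log 2 :=
      mul_le_mul_of_nonneg_left h7.le (by positivity)
    have h9 : 2 * ε₁ * L ≤ 1 * L := mul_le_mul_of_nonneg_right (by linarith) (by linarith)
    linarith
  -- the level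
  set D : ℕ := ⌊(Y : ℝ) ^ τ'⌋₊ with hD
  have hDle : (D : ℝ) ≤ (Y : ℝ) ^ τ' := Nat.floor_le (by positivity)
  have hDY : (D : ℝ) ≤ Y := by
    refine hDle.trans ?_
    calc (Y : ℝ) ^ τ' ≤ (Y : ℝ) ^ (1 : ℝ) := Real.rpow_le_rpow_of_exponent_le hYr1 hτ'1
      _ = Y := Real.rpow_one _
  have hDYn : D ≤ Y := by exact_mod_cast hDY
  have hSc : Sc κ D ≤ CS * L ^ (2 * κ) := Sc_le κ D Y CS hCS HSc hY3n hDYn
  have hSc0 : 0 ≤ Sc (κ : ℝ) D := by unfold Sc; positivity
  set R : ℝ := 2 * L ^ 3 with hR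
  have hRb : ∀ g : ℕ, 1 ≤ g → g ≤ D →
      ∑ b ∈ (Icc 1 ⌊x⌋₊).filter (fun b => ¬ b.Coprime g), |al x b| ≤ R := by
    intro g hg1 hgD
    refine (al_noncop x hx1 g hg1).trans ?_
    have h1 : Real.log g ≤ L := Real.log_le_log (by exact_mod_cast hg1)
      (by exact_mod_cast hgD.trans hDYn)
    have h2 : 0 ≤ Real.log g := Real.log_natCast_nonneg g
    calc 2 * Real.log g * Real.log x ^ 2 ≤ 2 * L * L ^ 2 := by gcongr
      _ = R := by rw [hR]; ring
  -- the exceptional sets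
  set A0 := (Icc (-(Y : ℤ)) Y).filter (fun k => F.eval 0 + k = 0) with hA0
  set A1 := (Icc (-(Y : ℤ)) Y).filter (fun k => F.eval 0 + k ≠ 0 ∧ ¬ Mer (pr Y ε₁ ζ) (tt Y)
        (fun p => (rs F k p : ℝ) / ((p : ℝ) - 1)) ε₁ ζ η) with hA1def
  set A2 := (Icc (-(Y : ℤ)) Y).filter (fun k =>
        ∑ T ∈ (PZ Y ζ).powerset, c T * Eg F ⌊x⌋₊ (al x) k (∏ p ∈ T, p) <
          -(x / L ^ (8 * κ + 1))) with hA2def
  have hgood : ∀ k ∈ Icc (-(Y : ℤ)) Y, k ∉ A0 → k ∉ A1 → k ∉ A2 →
      f / 80 * x / L * locP F k x ≤ (gp F k x ((Y : ℝ) ^ u)).card := by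
    intro k hk hk0 hk1 hk2
    have hk00 : F.eval 0 + k ≠ 0 := fun h => hk0 (by rw [hA0, mem_filter]; exact ⟨hk, h⟩)
    have hmer : Mer (pr Y ε₁ ζ) (tt Y) (fun p => (rs F k p : ℝ) / ((p : ℝ) - 1)) ε₁ ζ η := by
      by_contra h
      exact hk1 (by rw [hA1def, mem_filter]; exact ⟨hk, hk00, h⟩)
    have herr : -(x / L ^ (8 * κ + 1)) ≤
        ∑ T ∈ (PZ Y ζ).powerset, c T * Eg F ⌊x⌋₊ (al x) k (∏ p ∈ T, p) := by
      by_contra h
      push Not at h
      exact hk2 (by rw [hA2def, mem_filter]; exact ⟨hk, h⟩)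
    -- trivial case
    by_cases hfull : ∃ p ∈ (Icc 1 ⌊x⌋₊).filter Nat.Prime, rs F k p = p - 1
    · obtain ⟨p, hp, hpr⟩ := hfull
      have h1 : locP F k x = 0 := by
        unfold locP
        apply prod_eq_zero hp
        have hp2 := (mem_filter.1 hp).2.two_le
        have hp2r : (2 : ℝ) ≤ p := by exact_mod_cast hp2
        rw [hpr, Nat.cast_sub (by omega), Nat.cast_one, div_self (by linarith), sub_self]
      rw [h1, mul_zero]
      positivity
    push Not at hfull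
    have hlt : ∀ p : ℕ, p.Prime → p ≤ ⌊x⌋₊ → (rs F k p : ℝ) ≤ p - 2 := by
      intro p hp hpX
      have h1 := rs_le_pred F k p hp
      have h2 := hfull p (by rw [mem_filter, mem_Icc]; exact ⟨⟨hp.one_le, hpX⟩, hp⟩)
      have h3 : rs F k p + 2 ≤ p := by
        have := hp.two_le
        omega
      have h4 : (rs F k p : ℝ) + 2 ≤ p := by exact_mod_cast h3
      linarith
    have hsubX : PZ Y ε₁ ⊆ (Icc 1 ⌊x⌋₊).filter Nat.Prime := by
      intro p hp
      obtain ⟨h1, h2, h3⟩ := hPZ ε₁ p hp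
      rw [mem_filter, mem_Icc]
      refine ⟨⟨h1.one_le, ?_⟩, h1⟩
      apply Nat.le_floor
      refine h3.le.trans (le_trans ?_ hYx)
      exact Real.rpow_le_rpow_of_exponent_le hYr1 hε₁β
    have hr01 : ∀ p ∈ (Icc 1 ⌊x⌋₊).filter Nat.Prime,
        0 ≤ 1 - (rs F k p : ℝ) / ((p : ℝ) - 1) ∧ 1 - (rs F k p : ℝ) / ((p : ℝ) - 1) ≤ 1 := by
      intro p hp
      obtain ⟨h1, h2⟩ := rs_ratio F k p (mem_filter.1 hp).2
      constructor <;> linarith
    have hlocV : locP F k x ≤ ∏ p ∈ PZ Y ε₁, (1 - (rs F k p : ℝ) / ((p : ℝ) - 1)) := by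
      unfold locP
      rw [← prod_sdiff hsubX]
      calc (∏ p ∈ (Icc 1 ⌊x⌋₊).filter Nat.Prime \ PZ Y ε₁, (1 - (rs F k p : ℝ) / ((p : ℝ) - 1))) *
          ∏ p ∈ PZ Y ε₁, (1 - (rs F k p : ℝ) / ((p : ℝ) - 1)) ≤
          1 * ∏ p ∈ PZ Y ε₁, (1 - (rs F k p : ℝ) / ((p : ℝ) - 1)) := by
            apply mul_le_mul_of_nonneg_right
            · apply prod_le_one
              · intro p hp
                exact (hr01 p (mem_sdiff.1 hp).1).1
              · intro p hp
                exact (hr01 p (mem_sdiff.1 hp).1).2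
            · exact prod_nonneg fun p hp => (hr01 p (hsubX hp)).1
        _ = _ := one_mul _
    set V1 : ℝ := ∏ p ∈ PZ Y ε₁, (1 - (rs F k p : ℝ) / ((p : ℝ) - 1)) with hV1
    have hVlow : c0 * (1 / 2 ^ J) ^ (2 * (2 * κ)) ≤ V1 := by
      have h1 := HV J (PZ Y ε₁) (fun p => (rs F k p : ℝ) * p / ((p : ℝ) - 1)) (by
        intro p hp
        obtain ⟨h1, h2, h3⟩ := hPZ ε₁ p hp
        refine ⟨h1, ?_⟩
        have := h3.trans_le hJ1
        exact_mod_cast this) (by
        intro p hp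
        have hp2 : (2 : ℝ) ≤ p := by exact_mod_cast (hPZ ε₁ p hp).1.two_le
        have h1 : (rs F k p : ℝ) ≤ κ := by
          have := (rs_le_ro F k p).trans (PX.ro_le F hF k p (hPZ ε₁ p hp).1)
          exact_mod_cast this
        have h2 : (0 : ℝ) ≤ rs F k p := Nat.cast_nonneg _
        show (rs F k p : ℝ) * p / ((p : ℝ) - 1) ≤ ((2 * κ : ℕ) : ℝ)
        rw [div_le_iff₀ (by linarith)]
        push_cast
        nlinarith) (by
        intro p hp
        have hp2 : (2 : ℝ) ≤ p := by exact_mod_cast (hPZ ε₁ p hp).1.two_le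
        have h1 := hsubX hp
        rw [mem_filter, mem_Icc] at h1
        have h2 := hlt p h1.2 h1.1.2
        show (rs F k p : ℝ) * p / ((p : ℝ) - 1) ≤ (p : ℝ) - 1
        rw [div_le_iff₀ (by linarith)]
        nlinarith)
      refine h1.trans (le_of_eq ?_)
      rw [hV1]
      apply prod_congr rfl
      intro p hp
      have hp2 : (2 : ℝ) ≤ p := by exact_mod_cast (hPZ ε₁ p hp).1.two_le
      have hp1 : (p : ℝ) - 1 ≠ 0 := by linarith
      have hp0 : (p : ℝ) ≠ 0 := by linarith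
      congr 1
      field_simp
    have hVlow2 : c0 * (1 / 3) ^ (4 * κ) / L ^ (8 * κ) ≤ V1 := by
      refine le_trans ?_ hVlow
      have e1 : (1 / 3 : ℝ) ^ (4 * κ) / L ^ (4 * κ) ≤ (1 / 2 ^ J) ^ (2 * (2 * κ)) := by
        rw [← div_pow, show 2 * (2 * κ) = 4 * κ by ring]
        apply pow_le_pow_left₀ (by positivity)
        rw [div_div]
        exact one_div_le_one_div_of_le (by positivity) hJlog
      have e2 : L ^ (4 * κ) ≤ L ^ (8 * κ) := pow_le_pow_right₀ hL1 (by omega)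
      calc c0 * (1 / 3) ^ (4 * κ) / L ^ (8 * κ) ≤ c0 * (1 / 3) ^ (4 * κ) / L ^ (4 * κ) :=
            div_le_div_of_nonneg_left (by positivity) (by positivity) e2
        _ = c0 * ((1 / 3 : ℝ) ^ (4 * κ) / L ^ (4 * κ)) := by ring
        _ ≤ _ := mul_le_mul_of_nonneg_left e1 hc0.le
    have hV0 : 0 < V1 := lt_of_lt_of_le (by positivity) hVlow2
    -- main inequality
    have hmain := hcV (fun p => (rs F k p : ℝ) / ((p : ℝ) - 1))
      (fun p hp => (rs_ratio F k p (hPZ ζ p hp).1).1)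
      (fun p hp => (rs_ratio F k p (hPZ ε₁ p hp).1).2) (by
      intro p hp _
      have hp0 : (2 : ℝ) ≤ p := by exact_mod_cast (hPZ ε₁ p hp).1.two_le
      have h1 : (rs F k p : ℝ) ≤ κ := by
        have := (rs_le_ro F k p).trans (PX.ro_le F hF k p (hPZ ε₁ p hp).1)
        exact_mod_cast this
      show (rs F k p : ℝ) / ((p : ℝ) - 1) ≤ κ / ((p : ℝ) - 1)
      exact div_le_div_of_nonneg_right h1 (by linarith)) hmer
    have hlow := lowG tw_true F hF x k (PZ Y ζ) (fun p hp => (hPZ ζ p hp).1) c D (5 * L) R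
      (4 * L ^ 3) hx1 (by positivity) hcL (by
        intro T hT hcT
        exact Nat.le_floor (hcD T hT hcT)) (fun N => by
        refine (hcN N).trans (le_of_eq ?_)
        congr) hRb (by positivity) (by
        have hm0 : (F.eval 0 + k).natAbs ≠ 0 := Int.natAbs_ne_zero.2 hk00
        refine (al_noncop x hx1 _ (Nat.pos_of_ne_zero hm0)).trans ?_
        have h3 : Real.log ((F.eval 0 + k).natAbs : ℝ) ≤ 2 * L := by
          have h6 : (F.eval 0 + k).natAbs ≤ Y ^ 2 := by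
            have h7 : (F.eval 0 + k).natAbs ≤ (F.eval 0).natAbs + k.natAbs :=
              Int.natAbs_add_le _ _
            have h8 : k.natAbs ≤ Y := by
              rw [mem_Icc] at hk
              omega
            have h9 : 2 * Y ≤ Y ^ 2 := by nlinarith
            omega
          have h10 := Real.log_le_log (show (0 : ℝ) < ((F.eval 0 + k).natAbs : ℝ) by
            exact_mod_cast Nat.pos_of_ne_zero hm0)
            (show (((F.eval 0 + k).natAbs : ℕ) : ℝ) ≤ (Y : ℝ) ^ 2 by exact_mod_cast h6)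
          rw [Real.log_pow] at h10
          push_cast at h10
          exact h10
        have h4 : 0 ≤ Real.log ((F.eval 0 + k).natAbs : ℝ) := Real.log_natCast_nonneg _
        calc 2 * Real.log ((F.eval 0 + k).natAbs : ℝ) * Real.log x ^ 2 ≤ 2 * (2 * L) * L ^ 2 := by
              gcongr
          _ = 4 * L ^ 3 := by ring)
    have hup := TG_le F hF k x ((Y : ℝ) ^ u) Y ζ hx1 (by omega)
      (Real.rpow_le_rpow_of_exponent_le hYr1 (by linarith)) (by linarith)
    -- numbers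
    set N : ℝ := ((gp F k x ((Y : ℝ) ^ u)).card : ℝ) with hN
    have hMV : x / 20 * (f * V1) ≤ M * VV (PZ Y ζ) c (fun p => (rs F k p : ℝ) / ((p : ℝ) - 1)) :=
      mul_le_mul hM hmain (by positivity) (le_trans (by positivity) hM)
    set Q : ℝ := c1 * x / L ^ (8 * κ) with hQ
    have hQ0 : 0 < Q := by positivity
    have hQV : Q ≤ x / 20 * (f * V1) := by
      calc Q = x / 20 * (f * (c0 * (1 / 3) ^ (4 * κ) / L ^ (8 * κ))) := by
            rw [hQ, hc1]
            ring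
        _ ≤ x / 20 * (f * V1) := by gcongr
    have he1 : x / L ^ (8 * κ + 1) ≤ Q / 16 := by
      have h1 : 16 / c1 ≤ L := (le_max_left _ _).trans f2
      rw [div_le_iff₀ hc10] at h1
      rw [hQ, pow_succ, div_div, div_le_div_iff₀ (by positivity) (by positivity)]
      calc x * (L ^ (8 * κ) * 16) ≤ x * (L ^ (8 * κ) * (L * c1)) := by gcongr
        _ = c1 * x * (L ^ (8 * κ) * L) := by ring
    have he2 : 5 * L * R * Sc κ D + 4 * L ^ 3 + (L * (3 * F.natDegree) + 2 * √x * L) ≤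
        Q / 16 := by
      have h2 : 5 * L * R * Sc κ D + 4 * L ^ 3 + (L * (3 * F.natDegree) + 2 * √x * L) ≤
          (10 * CS + 4 + 3 * F.natDegree + 2) * L ^ (2 * κ + 4) * √x := by
        have b1 : 5 * L * R * Sc κ D ≤ 10 * CS * L ^ (2 * κ + 4) * √x := by
          calc 5 * L * R * Sc κ D ≤ 5 * L * R * (CS * L ^ (2 * κ)) := by gcongr
            _ = 10 * CS * L ^ (2 * κ + 4) * 1 := by rw [hR]; ring
            _ ≤ _ := by gcongr
        have b2 : 4 * L ^ 3 ≤ 4 * L ^ (2 * κ + 4) * √x := by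
          calc 4 * L ^ 3 ≤ 4 * L ^ (2 * κ + 4) * 1 := by
                rw [mul_one]
                apply mul_le_mul_of_nonneg_left _ (by norm_num)
                exact pow_le_pow_right₀ hL1 (by omega)
            _ ≤ _ := by gcongr
        have b3 : L * (3 * F.natDegree) ≤ 3 * F.natDegree * L ^ (2 * κ + 4) * √x := by
          calc L * (3 * (F.natDegree : ℝ)) = 3 * F.natDegree * L ^ 1 * 1 := by ring
            _ ≤ 3 * F.natDegree * L ^ (2 * κ + 4) * √x := by
                apply mul_le_mul _ hsx1 (by norm_num) (by positivity)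
                apply mul_le_mul_of_nonneg_left _ (by positivity)
                exact pow_le_pow_right₀ hL1 (by omega)
        have b4 : 2 * √x * L ≤ 2 * L ^ (2 * κ + 4) * √x := by
          calc 2 * √x * L = 2 * L ^ 1 * √x := by ring
            _ ≤ 2 * L ^ (2 * κ + 4) * √x := by
                apply mul_le_mul_of_nonneg_right _ hsx0.le
                apply mul_le_mul_of_nonneg_left _ (by norm_num)
                exact pow_le_pow_right₀ hL1 (by omega)
        linarith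
      refine h2.trans ?_
      rw [hQ, div_div, le_div_iff₀ (by positivity)]
      have h3 : (16 / c1 * (10 * CS + 4 + 3 * F.natDegree + 2)) * L ^ (10 * κ + 4) ≤ √x :=
        f3.trans hYs
      calc (10 * CS + 4 + 3 * F.natDegree + 2) * L ^ (2 * κ + 4) * √x * (L ^ (8 * κ) * 16) =
          c1 * ((16 / c1 * (10 * CS + 4 + 3 * F.natDegree + 2)) * L ^ (10 * κ + 4)) * √x := by
            have : L ^ (10 * κ + 4) = L ^ (2 * κ + 4) * L ^ (8 * κ) := by ring
            rw [this]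
            field_simp
        _ ≤ c1 * √x * √x := by gcongr
        _ = c1 * x := by rw [mul_assoc, hsx]
    have hlN : Real.log x * (N + 3 * F.natDegree) + 2 * √x * Real.log x ≤
        L * N + (L * (3 * F.natDegree) + 2 * √x * L) := by
      have b1 : Real.log x * (N + 3 * F.natDegree) ≤ L * (N + 3 * F.natDegree) := by
        apply mul_le_mul_of_nonneg_right hlx
        positivity
      have b2 : 2 * √x * Real.log x ≤ 2 * √x * L := by gcongr
      linarith
    have hfin : x / 20 * (f * V1) / 4 ≤ L * N := by linarith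
    have hfin2 : f / 80 * x * V1 ≤ L * N := by linarith
    have hfin3 : f / 80 * x * locP F k x ≤ L * N := by
      refine le_trans ?_ hfin2
      exact mul_le_mul_of_nonneg_left hlocV (by positivity)
    calc f / 80 * x / L * locP F k x = (f / 80 * x * locP F k x) / L := by ring
      _ ≤ (L * N) / L := div_le_div_of_nonneg_right hfin3 hL0.le
      _ = N := by field_simp
  have hsub : (Icc (-(Y : ℤ)) (Y : ℤ)).filter (fun k =>
        ((gp F k x ((Y : ℝ) ^ u)).card : ℝ) < f / 80 * x / L * locP F k x) ⊆ (A0 ∪ A1) ∪ A2 := by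
    intro k hk
    rw [mem_filter] at hk
    rw [mem_union, mem_union]
    by_contra hcon
    push Not at hcon
    exact absurd (hgood k hk.1 hcon.1.1 hcon.1.2 hcon.2) (not_le.2 hk.2)
  have hA0c : (A0.card : ℝ) ≤ (Y : ℝ) ^ (E + 3 * ε / 4) := by
    have h1 : A0.card ≤ 1 := by
      rw [card_le_one]
      intro a ha b hb
      rw [hA0, mem_filter] at ha hb
      linarith [ha.2, hb.2]
    have h2 : (A0.card : ℝ) ≤ 1 := by exact_mod_cast h1
    refine h2.trans (Real.one_le_rpow hYr1 ?_)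
    linarith
  have hA1c : (A1.card : ℝ) ≤ (Y : ℝ) ^ (E + 3 * ε / 4) :=
    hB1.trans (Real.rpow_le_rpow_of_exponent_le hYr1 (by linarith))
  have hA2c : (A2.card : ℝ) ≤ (Y : ℝ) ^ (E + 3 * ε / 4) :=
    hB2.trans (Real.rpow_le_rpow_of_exponent_le hYr1 (by linarith))
  have hcu : (((A0 ∪ A1) ∪ A2).card : ℝ) ≤ A0.card + A1.card + A2.card := by
    have h1 := card_union_le (A0 ∪ A1) A2
    have h2 := card_union_le A0 A1
    have h3 : ((A0 ∪ A1) ∪ A2).card ≤ A0.card + A1.card + A2.card := by omega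
    exact_mod_cast h3
  calc (((Icc (-(Y : ℤ)) (Y : ℤ)).filter (fun k =>
        ((gp F k x ((Y : ℝ) ^ u)).card : ℝ) < f / 80 * x / L * locP F k x)).card : ℝ) ≤
        (((A0 ∪ A1) ∪ A2).card : ℝ) := by exact_mod_cast card_le_card hsub
    _ ≤ 3 * (Y : ℝ) ^ (E + 3 * ε / 4) := by linarith
    _ ≤ (Y : ℝ) ^ (ε / 8) * (Y : ℝ) ^ (E + 3 * ε / 4) :=
        mul_le_mul_of_nonneg_right f5 (by positivity)
    _ ≤ (Y : ℝ) ^ (E + ε) := by
        rw [← Real.rpow_add hY0]
        apply Real.rpow_le_rpow_of_exponent_le hYr1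
        linarith

end Pool.Agent.Y882.GP
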