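import Pool.Agent.Y882.GP.Blk

/-! The error term: `F(b) + k ≡ 0 (mod d)` averaged over `k ∈ S`, by the large sieve. -/

set_option autoImplicit false

open Finset Polynomial

namespace Pool.Agent.Y882.GP

open Pool.Agent.Y882
open Pool.Agent.Helper112 Pool.Agent.Helper112.BLB
open Pool.Agent.H732R2.B2 (Sc card_prim)
open Pool.Agent.Y882.PX (ro KF)

open Classical in
/-- sum over primitive characters -/
noncomputable def PW (F : ℤ[X]) (X : ℕ) (α : ℕ → ℝ) (S : Finset ℤ) (g f : ℕ) : ℝ :=
  ∑ ψ ∈ (univ : Finset (DirichletCharacter ℂ f)).filter (fun χ => χ.IsPrimitive),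
    ‖A X (res g α) f ψ‖ * ‖WW F (fun k => (rs F k g : ℝ)) S f ψ‖

theorem PW_nonneg (F : ℤ[X]) (X : ℕ) (α : ℕ → ℝ) (S : Finset ℤ) (g f : ℕ) :
    0 ≤ PW F X α S g f := sum_nonneg fun _ _ => by positivity

theorem eg_sum (hEG : St_EG) (hTW : St_TW) (F : ℤ[X]) (X : ℕ) (α : ℕ → ℝ) (S : Finset ℤ) (d : ℕ)
    (hd : Squarefree d) :
    |∑ k ∈ S, Eg F X α k d| ≤ ∑ f ∈ d.divisors.filter (fun f => f ≠ 1),
        (1 / (Nat.totient d : ℝ)) * PW F X α S (d / f) f := by
  classical
  have hd0 : d ≠ 0 := hd.ne_zero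
  have : NeZero d := ⟨hd0⟩
  have key : ((∑ k ∈ S, Eg F X α k d : ℝ) : ℂ) =
      (1 / (Nat.totient d : ℂ)) *
      ∑ χ ∈ (univ : Finset (DirichletCharacter ℂ d)).filter (fun χ => χ ≠ 1),
        (A X α d χ * ∑ k ∈ S, tw F k d χ) := by
    rw [Complex.ofReal_sum, sum_congr rfl fun k _ => hEG F X α k d, ← mul_sum, sum_comm]
    congr 1
    apply sum_congr rfl
    intro χ _
    rw [← sum_mul, mul_comm]
  rw [← Real.norm_eq_abs, ← Complex.norm_real, key, norm_mul]
  have n1 : ‖(1 / (Nat.totient d : ℂ))‖ = 1 / (Nat.totient d : ℝ) := by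
    rw [norm_div, norm_one, Complex.norm_natCast]
  rw [n1, ← mul_sum]
  apply mul_le_mul_of_nonneg_left _ (by positivity)
  refine (norm_sum_le _ _).trans ?_
  have h3 : ∀ χ ∈ (univ : Finset (DirichletCharacter ℂ d)).filter (fun χ => χ ≠ 1),
      ‖A X α d χ * ∑ k ∈ S, tw F k d χ‖ = ‖A X α d χ‖ * ‖∑ k ∈ S, tw F k d χ‖ := by
    intro χ _
    rw [norm_mul]
  rw [sum_congr rfl h3]
  apply step2 d (fun χ => ‖A X α d χ‖ * ‖∑ k ∈ S, tw F k d χ‖) (fun χ => by positivity)
    (fun f ψ => ‖A X (res (d / f) α) f ψ‖ * ‖WW F (fun k => (rs F k (d / f) : ℝ)) S f ψ‖)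
  intro f h ψ
  obtain ⟨g, rfl⟩ := h
  have hf : 0 < f := by
    rcases Nat.eq_zero_or_pos f with h | h
    · subst h; simp at hd0
    · exact h
  have hg : 0 < g := by
    rcases Nat.eq_zero_or_pos g with h | h
    · subst h; simp at hd0
    · exact h
  have hcop : f.Coprime g := Nat.coprime_of_squarefree_mul hd
  rw [Nat.mul_div_cancel_left g hf, A_changeLevel]
  apply le_of_eq
  congr 2
  unfold WW
  apply sum_congr rfl
  intro k _
  rw [hTW F k f g hcop hf hg _ ψ]
  push_cast
  rfl

theorem rs_le_ro (F : ℤ[X]) (k : ℤ) (d : ℕ) : rs F k d ≤ ro F k d := by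
  classical
  rw [PX.ro_eq]
  unfold rs Rt
  apply card_le_card
  intro a ha
  rw [mem_filter] at ha ⊢
  exact ⟨ha.1, ha.2.1⟩

theorem ro_le_pow' (F : ℤ[X]) (hF : 1 ≤ F.natDegree) (k : ℤ) (q : ℕ) (hq : Squarefree q) :
    (ro F k q : ℝ) ≤ (KF F : ℝ) ^ q.primeFactors.card := by
  have h := PX.ro_le_pow F hF k q.primeFactors (fun p hp => Nat.prime_of_mem_primeFactors hp)
  rwa [Nat.prod_primeFactors_of_squarefree hq] at h

theorem rs_le_pow (F : ℤ[X]) (hF : 1 ≤ F.natDegree) (k : ℤ) (q : ℕ) (hq : Squarefree q) :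
    (rs F k q : ℝ) ≤ (KF F : ℝ) ^ q.primeFactors.card :=
  le_trans (by exact_mod_cast rs_le_ro F k q) (ro_le_pow' F hF k q hq)

theorem tw_le (F : ℤ[X]) (k : ℤ) (d : ℕ) (χ : DirichletCharacter ℂ d) :
    ‖tw F k d χ‖ ≤ rs F k d := by
  unfold tw rs
  refine (norm_sum_le _ _).trans ?_
  rw [← nsmul_one, ← sum_const]
  apply sum_le_sum
  intro a _
  rw [RCLike.norm_conj]
  exact χ.norm_le_one _

theorem WW_le (F : ℤ[X]) (hF : 1 ≤ F.natDegree) (S : Finset ℤ) (g f : ℕ) (hg : Squarefree g)
    (hf : Squarefree f) (ψ : DirichletCharacter ℂ f) :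
    ‖WW F (fun k => (rs F k g : ℝ)) S f ψ‖ ≤
      S.card * ((KF F : ℝ) ^ g.primeFactors.card * (KF F : ℝ) ^ f.primeFactors.card) := by
  unfold WW
  refine (norm_sum_le _ _).trans ?_
  rw [← nsmul_eq_mul, ← sum_const]
  apply sum_le_sum
  intro k _
  rw [norm_mul, Complex.norm_real, Real.norm_eq_abs, abs_of_nonneg (Nat.cast_nonneg _)]
  exact mul_le_mul (rs_le_pow F hF k g hg) ((tw_le F k f ψ).trans (rs_le_pow F hF k f hf))
    (norm_nonneg _) (by positivity)

open Classical in
/-- the error term on average over `S` -/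
theorem err_tot (hEG : St_EG) (hTW : St_TW) (hBES : St_BES) (hLSI : St_LSI) (F : ℤ[X])
    (hF : 1 ≤ F.natDegree) (X H F0 D : ℕ) (α : ℕ → ℝ) (S : Finset ℤ)
    (hS : S ⊆ Icc (-(H : ℤ)) H) (hF0 : 1 ≤ F0)
    (hF0D : F0 ≤ D) (c : ℕ → ℝ) (K : ℝ) (hK : 0 ≤ K) (hc : ∀ d, |c d| ≤ K)
    (hsq : ∀ d, c d ≠ 0 → Squarefree d) (R : ℝ)
    (hR : ∀ g : ℕ, 1 ≤ g → g ≤ D → ∑ b ∈ (Icc 1 X).filter (fun b => ¬ b.Coprime g), |α b| ≤ R)
    (B : ℝ) (hB : ∀ f : ℕ, f ≤ D → Squarefree f → (KF F : ℝ) ^ f.primeFactors.card ≤ B) :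
    |∑ d ∈ Icc 1 D, c d * ∑ k ∈ S, Eg F X α k d| ≤
      K * (Sc (KF F) D * (S.card * (∑ f ∈ Icc 2 F0, ((KF F : ℝ) ^ f.primeFactors.card /
        (Nat.totient f : ℝ)) * PA X α f + F0 * (B * R)) +
        12 * (1 + Real.log D) * (Real.sqrt (X * ((2 * H + 1 : ℕ) : ℝ)) / F0 +
          (Real.sqrt X + Real.sqrt ((2 * H + 1 : ℕ) : ℝ)) + D) *
        (Real.sqrt (∑ b ∈ Icc 1 X, α b ^ 2) * Real.sqrt (B * S.card)))) := by
  have hD1 : 1 ≤ D := hF0.trans hF0D
  have hB0 : 0 ≤ B := by
    have := hB 1 hD1 squarefree_one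
    simp at this
    linarith
  set Z : ℕ := 2 * H + 1 with hZ
  set κ : ℝ := (KF F : ℝ) with hκ
  have hκ0 : 0 ≤ κ := Nat.cast_nonneg _
  set G : ℕ → ℕ → ℝ := fun g f => if Squarefree f then (1 / (Nat.totient g : ℝ)) *
    ((1 / (Nat.totient f : ℝ)) * PW F X α S g f) else 0 with hG
  have hG0 : ∀ g f, 0 ≤ G g f := by
    intro g f
    simp only [hG]
    split_ifs
    · exact mul_nonneg (by positivity) (mul_nonneg (by positivity) (PW_nonneg _ _ _ _ _ _))
    · exact le_rfl
  set M : Finset ℕ := (Icc 1 D).filter Squarefree with hM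
  have s1 : |∑ d ∈ Icc 1 D, c d * ∑ k ∈ S, Eg F X α k d| ≤
      K * ∑ d ∈ M, ∑ f ∈ d.divisors.filter (fun f => f ≠ 1), G (d / f) f := by
    have h1 : ∑ d ∈ Icc 1 D, c d * ∑ k ∈ S, Eg F X α k d =
        ∑ d ∈ M, c d * ∑ k ∈ S, Eg F X α k d := by
      rw [hM, sum_filter]
      apply sum_congr rfl
      intro d _
      split_ifs with h
      · rfl
      · have : c d = 0 := by
          by_contra hne
          exact h (hsq d hne)
        rw [this, zero_mul]
    rw [h1, mul_sum]
    refine (abs_sum_le_sum_abs _ _).trans (sum_le_sum fun d hd => ?_)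
    rw [hM, mem_filter, mem_Icc] at hd
    rw [abs_mul]
    apply mul_le_mul (hc d) _ (abs_nonneg _) hK
    refine (eg_sum hEG hTW F X α S d hd.2).trans (sum_le_sum fun f hf => ?_)
    rw [mem_filter, Nat.mem_divisors] at hf
    obtain ⟨⟨⟨g, rfl⟩, -⟩, hf1⟩ := hf
    have hf0 : 0 < f := Nat.pos_of_ne_zero (by rintro rfl; simp at hd)
    have hg0 : 0 < g := Nat.pos_of_ne_zero (by rintro rfl; simp at hd)
    rw [Nat.mul_div_cancel_left g hf0]
    have hcop2 : f.Coprime g := Nat.coprime_of_squarefree_mul hd.2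
    have hsf : Squarefree f := hd.2.squarefree_of_dvd (Dvd.intro g rfl)
    rw [Nat.totient_mul hcop2]
    apply le_of_eq
    simp only [hG, if_pos hsf]
    push_cast
    have htf : (0 : ℝ) < Nat.totient f := by exact_mod_cast Nat.totient_pos.mpr hf0
    have htg0 : (0 : ℝ) < Nat.totient g := by exact_mod_cast Nat.totient_pos.mpr hg0
    field_simp
  have s4 : ∑ d ∈ M, ∑ f ∈ d.divisors.filter (fun f => f ≠ 1), G (d / f) f ≤
      ∑ g ∈ M, ∑ f ∈ Icc 2 D, G g f := by
    rw [sum_sigma', ← sum_product']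
    have e6 : ∑ x ∈ M.sigma (fun m => m.divisors.filter (fun f => f ≠ 1)), G (x.1 / x.2) x.2 =
        ∑ p ∈ (M.sigma (fun m => m.divisors.filter (fun f => f ≠ 1))).image
          (fun x : (_ : ℕ) × ℕ => (x.1 / x.2, x.2)), G p.1 p.2 := by
      rw [sum_image]
      rintro ⟨m, f⟩ hx ⟨m', f'⟩ hx' heq
      simp only [Finset.mem_coe, mem_sigma, mem_filter, Nat.mem_divisors] at hx hx'
      simp only [Prod.mk.injEq] at heq
      obtain ⟨h7, h8⟩ := heq
      subst h8
      have : m = m' := by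
        rw [← Nat.div_mul_cancel hx.2.1.1, h7, Nat.div_mul_cancel hx'.2.1.1]
      subst this
      rfl
    rw [e6]
    apply sum_le_sum_of_subset_of_nonneg
    · intro p hp
      rw [mem_image] at hp
      obtain ⟨⟨m, f⟩, hx, rfl⟩ := hp
      simp only [mem_sigma, mem_filter, Nat.mem_divisors] at hx
      obtain ⟨hm, ⟨hfm, hm0⟩, hf1⟩ := hx
      rw [hM, mem_filter, mem_Icc] at hm
      have hf0 : 0 < f := Nat.pos_of_dvd_of_pos hfm hm.1.1
      simp only [mem_product, mem_Icc, hM, mem_filter]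
      refine ⟨⟨⟨Nat.div_pos (Nat.le_of_dvd hm.1.1 hfm) hf0, (Nat.div_le_self m f).trans hm.1.2⟩,
        ?_⟩, by omega, (Nat.le_of_dvd hm.1.1 hfm).trans hm.1.2⟩
      exact hm.2.squarefree_of_dvd (Nat.div_dvd_of_dvd hfm)
    · intro p _ _
      exact hG0 _ _
  set BVs : ℝ := ∑ f ∈ Icc 2 F0, (κ ^ f.primeFactors.card / (Nat.totient f : ℝ)) * PA X α f
    with hBVs
  set T2 : ℝ := 12 * (1 + Real.log D) * (Real.sqrt (X * (Z : ℝ)) / F0 +
    (Real.sqrt X + Real.sqrt (Z : ℝ)) + D) *
    (Real.sqrt (∑ b ∈ Icc 1 X, α b ^ 2) * Real.sqrt (B * S.card)) with hT2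
  have s5 : ∀ g ∈ M, ∑ f ∈ Icc 2 D, G g f ≤ (κ ^ g.primeFactors.card / (Nat.totient g : ℝ)) *
      (S.card * (BVs + F0 * (B * R)) + T2) := by
    intro g hg
    rw [hM, mem_filter, mem_Icc] at hg
    have hR0 : 0 ≤ R := (sum_nonneg fun b _ => abs_nonneg _).trans (hR g hg.1.1 hg.1.2)
    have hGe : ∀ f, G g f = (1 / (Nat.totient g : ℝ)) * ((1 / (Nat.totient f : ℝ)) *
        (if Squarefree f then PW F X α S g f else 0)) := by
      intro f
      simp only [hG]
      split_ifs <;> simp
    rw [sum_congr rfl fun f _ => hGe f, ← mul_sum]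
    have hexp : (κ ^ g.primeFactors.card / (Nat.totient g : ℝ)) *
      (S.card * (BVs + F0 * (B * R)) + T2) = (1 / (Nat.totient g : ℝ)) *
      (κ ^ g.primeFactors.card * (S.card * (BVs + F0 * (B * R)) + T2)) := by ring
    rw [hexp]
    apply mul_le_mul_of_nonneg_left _ (by positivity)
    set Pf : ℕ → ℝ := fun f => if Squarefree f then PW F X α S g f else 0 with hPf
    have hPf0 : ∀ f, 0 ≤ Pf f := by
      intro f
      simp only [hPf]
      split_ifs
      · exact PW_nonneg _ _ _ _ _ _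
      · exact le_rfl
    have hsplit : Icc 2 D ⊆ Icc 2 F0 ∪ Icc (F0 + 1) D := by
      intro f hf
      rw [mem_Icc] at hf
      rw [mem_union, mem_Icc, mem_Icc]
      omega
    have hnn : ∀ f, 0 ≤ (1 / (Nat.totient f : ℝ)) * Pf f :=
      fun f => mul_nonneg (by positivity) (hPf0 f)
    have u1 : ∑ f ∈ Icc 2 D, (1 / (Nat.totient f : ℝ)) * Pf f ≤
        ∑ f ∈ Icc 2 F0, (1 / (Nat.totient f : ℝ)) * Pf f +
        ∑ f ∈ Icc (F0 + 1) D, (1 / (Nat.totient f : ℝ)) * Pf f := by
      refine (sum_le_sum_of_subset_of_nonneg hsplit (fun f _ _ => hnn f)).trans ?_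
      rw [← sum_union_inter]
      have : 0 ≤ ∑ f ∈ Icc 2 F0 ∩ Icc (F0 + 1) D, (1 / (Nat.totient f : ℝ)) * Pf f :=
        sum_nonneg fun f _ => hnn f
      linarith
    have u2 : ∑ f ∈ Icc 2 F0, (1 / (Nat.totient f : ℝ)) * Pf f ≤
        κ ^ g.primeFactors.card * (S.card * (BVs + F0 * (B * R))) := by
      have v1 : ∀ f ∈ Icc 2 F0, (1 / (Nat.totient f : ℝ)) * Pf f ≤
          κ ^ g.primeFactors.card * (S.card * ((κ ^ f.primeFactors.card /
            (Nat.totient f : ℝ)) * PA X α f + B * R)) := by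
        intro f hf
        rw [mem_Icc] at hf
        have htf : (0 : ℝ) < Nat.totient f := by
          exact_mod_cast Nat.totient_pos.mpr (by omega)
        have hPA : 0 ≤ PA X α f := sum_nonneg fun _ _ => norm_nonneg _
        simp only [hPf]
        split_ifs with hsf
        · have v2 : PW F X α S g f ≤ (S.card * (κ ^ g.primeFactors.card *
              κ ^ f.primeFactors.card)) * (PA X α f + Nat.totient f * R) := by
            unfold PW PA
            calc ∑ ψ ∈ (univ : Finset (DirichletCharacter ℂ f)).filter (fun χ => χ.IsPrimitive),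
                ‖A X (res g α) f ψ‖ * ‖WW F (fun k => (rs F k g : ℝ)) S f ψ‖ ≤
                ∑ ψ ∈ (univ : Finset (DirichletCharacter ℂ f)).filter (fun χ => χ.IsPrimitive),
                (‖A X α f ψ‖ + R) * (S.card * (κ ^ g.primeFactors.card *
                  κ ^ f.primeFactors.card)) := by
                  apply sum_le_sum
                  intro ψ _
                  apply mul_le_mul _ (WW_le F hF S g f hg.2 hsf ψ) (norm_nonneg _)
                    (by positivity)
                  exact (A_res_le X g f α ψ).trans (add_le_add le_rfl (hR g hg.1.1 hg.1.2))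
              _ = (S.card * (κ ^ g.primeFactors.card * κ ^ f.primeFactors.card)) *
                  (∑ ψ ∈ (univ : Finset (DirichletCharacter ℂ f)).filter
                  (fun χ => χ.IsPrimitive), ‖A X α f ψ‖ +
                  (((univ : Finset (DirichletCharacter ℂ f)).filter
                  (fun χ => χ.IsPrimitive)).card : ℝ) * R) := by
                  rw [← sum_mul, sum_add_distrib, sum_const, nsmul_eq_mul]
                  ring
              _ ≤ _ := by
                  apply mul_le_mul_of_nonneg_left _ (by positivity)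
                  apply add_le_add le_rfl
                  apply mul_le_mul_of_nonneg_right _ hR0
                  exact card_prim f (by omega)
          have hBf : κ ^ f.primeFactors.card ≤ B := hB f (hf.2.trans hF0D) hsf
          calc (1 / (Nat.totient f : ℝ)) * PW F X α S g f ≤
              (1 / (Nat.totient f : ℝ)) * ((S.card * (κ ^ g.primeFactors.card *
              κ ^ f.primeFactors.card)) * (PA X α f + Nat.totient f * R)) :=
                mul_le_mul_of_nonneg_left v2 (by positivity)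
            _ = κ ^ g.primeFactors.card * (S.card * ((κ ^ f.primeFactors.card /
              (Nat.totient f : ℝ)) * PA X α f + κ ^ f.primeFactors.card * R)) := by
                field_simp
            _ ≤ _ := by
                apply mul_le_mul_of_nonneg_left _ (by positivity)
                apply mul_le_mul_of_nonneg_left _ (by positivity)
                apply add_le_add le_rfl
                exact mul_le_mul_of_nonneg_right hBf hR0
        · rw [mul_zero]
          positivity
      refine (sum_le_sum v1).trans ?_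
      rw [← mul_sum, ← mul_sum, sum_add_distrib, sum_const, nsmul_eq_mul, Nat.card_Icc]
      apply mul_le_mul_of_nonneg_left _ (by positivity)
      apply mul_le_mul_of_nonneg_left _ (by positivity)
      apply add_le_add le_rfl
      apply mul_le_mul_of_nonneg_right _ (by positivity)
      have : F0 + 1 - 2 ≤ F0 := by omega
      exact_mod_cast this
    have u3 : ∑ f ∈ Icc (F0 + 1) D, (1 / (Nat.totient f : ℝ)) * Pf f ≤
        κ ^ g.primeFactors.card * T2 := by
      set Q : ℝ := B * (κ ^ g.primeFactors.card ^ 1) ^ 2 * S.card with hQ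
      have hQ0 : 0 ≤ Q := by positivity
      set T : ℝ := Real.sqrt (∑ b ∈ Icc 1 X, res g α b ^ 2) * Real.sqrt Q with hT
      have hS0 : ∀ j ≤ D, ∑ f ∈ Icc 1 j, ((f : ℝ) / (Nat.totient f : ℝ)) * Pf f ≤
          6 * ((Real.sqrt X + j) * (Real.sqrt (Z : ℝ) + j)) * T := by
        intro j hj
        have hps := pair_sieve X Z (res g α) j (fun f ψ => if Squarefree f then
          ‖WW F (fun k => (rs F k g : ℝ)) S f ψ‖ else 0) Q hQ0 (by
          have hj1 : ∑ f ∈ Icc 1 j, ((f : ℝ) / (Nat.totient f : ℝ)) *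
              ∑ χ ∈ (univ : Finset (DirichletCharacter ℂ f)).filter (fun χ => χ.IsPrimitive),
                (if Squarefree f then ‖WW F (fun k => (rs F k g : ℝ)) S f χ‖ else 0) ^ 2 ≤
              ∑ f ∈ Icc 1 j, B * ∑ b ∈ (range f).filter (fun b => b.Coprime f),
                ‖∑ k ∈ S, (((fun k => (rs F k g : ℝ)) k : ℝ) : ℂ) *
                  H343.ex ((b : ℝ) * k / f)‖ ^ 2 := by
            apply sum_le_sum
            intro f hf
            rw [mem_Icc] at hf
            split_ifs with hsf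
            · apply hBES F (fun k => (rs F k g : ℝ)) S f (by omega) B
              intro k
              exact (ro_le_pow' F hF k f hsf).trans (hB f (hf.2.trans hj) hsf)
            · simp only [ne_eq, OfNat.ofNat_ne_zero, not_false_eq_true, zero_pow, sum_const_zero,
                mul_zero]
              exact mul_nonneg hB0 (sum_nonneg fun _ _ => by positivity)
          refine hj1.trans ?_
          rw [← mul_sum]
          have hl := hLSI H j S hS (fun k => (rs F k g : ℝ))
          have hw : ∑ k ∈ S, (rs F k g : ℝ) ^ 2 ≤ (κ ^ g.primeFactors.card ^ 1) ^ 2 * S.card := by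
            rw [mul_comm, ← nsmul_eq_mul, ← sum_const]
            apply sum_le_sum
            intro k _
            rw [pow_one]
            exact pow_le_pow_left₀ (Nat.cast_nonneg _) (rs_le_pow F hF k g hg.2) 2
          calc B * _ ≤ B * (6 * (2 * H + 1 + (j : ℝ) ^ 2) * ∑ k ∈ S, (rs F k g : ℝ) ^ 2) :=
                mul_le_mul_of_nonneg_left hl hB0
            _ ≤ B * (6 * (2 * H + 1 + (j : ℝ) ^ 2) *
                ((κ ^ g.primeFactors.card ^ 1) ^ 2 * S.card)) := by
                apply mul_le_mul_of_nonneg_left _ hB0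
                exact mul_le_mul_of_nonneg_left hw (by positivity)
            _ = 6 * ((Z : ℝ) + (j : ℝ) ^ 2) * Q := by
                rw [hQ, hZ]
                push_cast
                ring)
        refine le_trans (le_of_eq ?_) hps
        apply sum_congr rfl
        intro f _
        simp only [hPf]
        split_ifs with hsf
        · rfl
        · simp
      have h45 := step45V X Z Pf hPf0 T (by positivity) (F0 + 1) D (by omega) hD1 hS0
      refine h45.trans ?_
      rw [hT2]
      have hlogD : 0 ≤ Real.log D := Real.log_natCast_nonneg D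
      have w1 : Real.sqrt (∑ b ∈ Icc 1 X, res g α b ^ 2) ≤ Real.sqrt (∑ b ∈ Icc 1 X, α b ^ 2) :=
        res_sq _ _ _
      have w2 : Real.sqrt Q = κ ^ g.primeFactors.card * Real.sqrt (B * S.card) := by
        rw [hQ, pow_one, show B * (κ ^ g.primeFactors.card) ^ 2 * (S.card : ℝ) =
          (κ ^ g.primeFactors.card) ^ 2 * (B * S.card) by ring,
          Real.sqrt_mul (by positivity), Real.sqrt_sq (by positivity)]
      have w3 : Real.sqrt (X * (Z : ℝ)) / ((F0 + 1 : ℕ) : ℝ) ≤ Real.sqrt (X * (Z : ℝ)) / F0 := by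
        apply div_le_div_of_nonneg_left (Real.sqrt_nonneg _) (by exact_mod_cast hF0)
        push_cast
        linarith
      calc 12 * (1 + Real.log D) * (Real.sqrt (X * (Z : ℝ)) / ((F0 + 1 : ℕ) : ℝ) +
            (Real.sqrt X + Real.sqrt (Z : ℝ)) + D) * T ≤
          12 * (1 + Real.log D) * (Real.sqrt (X * (Z : ℝ)) / F0 +
            (Real.sqrt X + Real.sqrt (Z : ℝ)) + D) *
            (Real.sqrt (∑ b ∈ Icc 1 X, α b ^ 2) *
              (κ ^ g.primeFactors.card * Real.sqrt (B * S.card))) := by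
            rw [hT, w2]
            apply mul_le_mul _ _ (by positivity) (by positivity)
            · apply mul_le_mul_of_nonneg_left _ (by positivity)
              linarith
            · exact mul_le_mul_of_nonneg_right w1 (by positivity)
        _ = _ := by ring
    calc ∑ f ∈ Icc 2 D, (1 / (Nat.totient f : ℝ)) * Pf f ≤ _ := u1
      _ ≤ κ ^ g.primeFactors.card * (S.card * (BVs + F0 * (B * R))) +
          κ ^ g.primeFactors.card * T2 := add_le_add u2 u3
      _ = _ := by ring
  refine s1.trans (mul_le_mul_of_nonneg_left ?_ hK)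
  refine s4.trans ((sum_le_sum s5).trans ?_)
  rw [← sum_mul]
  have s6 : ∑ g ∈ M, (κ ^ g.primeFactors.card / (Nat.totient g : ℝ)) = Sc κ D := rfl
  rw [s6]

end Pool.Agent.Y882.GP
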